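import Pool.Agent.H37.CV.Targets

/-!
# The proportion of non-vanishing central values
-/

set_option autoImplicit false

open NumberField NumberField.InfinitePlace Complex Filter Topology MeasureTheory

namespace Pool.Agent.H37.CV

open Pool.Agent.H28.RC Pool.Agent.H25.HK

variable {K : Type} [Field K] [NumberField K]

/-- the entire continuation is unique -/
theorem ent_unique (χ : RCC K) (Z Z' : ℂ → ℂ) (h : IsEnt χ Z) (h' : IsEnt χ Z') : Z = Z' := by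
  have h1 : AnalyticOnNhd ℂ Z Set.univ := h.1.differentiableOn.analyticOnNhd isOpen_univ
  have h2 : AnalyticOnNhd ℂ Z' Set.univ := h'.1.differentiableOn.analyticOnNhd isOpen_univ
  refine AnalyticOnNhd.eq_of_eventuallyEq h1 h2 (z₀ := (2 : ℂ)) ?_
  have h3 : {s : ℂ | 1 < s.re} ∈ 𝓝 (2 : ℂ) :=
    (isOpen_lt continuous_const Complex.continuous_re).mem_nhds (by norm_num)
  filter_upwards [h3] with s hs
  rw [h.2 s hs, h'.2 s hs]

theorem cval_eq (χ : RCC K) (Z : ℂ → ℂ) (h : IsEnt χ Z) : cval χ = Z (1 / 2) := by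
  have h1 : ∃ Z, IsEnt χ Z := ⟨Z, h⟩
  rw [cval, dif_pos h1, ent_unique χ _ _ h1.choose_spec h]

/-- Cauchy-Schwarz -/
theorem cs_support {ι : Type} (s : Finset ι) (a b : ι → ℂ) [DecidablePred fun i => a i ≠ 0] :
    ‖∑ i ∈ s, a i * b i‖ ^ 2 ≤
      ((s.filter fun i => a i ≠ 0).card : ℝ) * ∑ i ∈ s, ‖a i‖ ^ 2 * ‖b i‖ ^ 2 := by
  have h1 : ‖∑ i ∈ s, a i * b i‖ ≤ ∑ i ∈ s.filter (fun i => a i ≠ 0), 1 * (‖a i‖ * ‖b i‖) := by
    have h2 : ∑ i ∈ s, a i * b i = ∑ i ∈ s.filter (fun i => a i ≠ 0), a i * b i := by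
      rw [Finset.sum_filter_of_ne]
      intro i _ hi h
      exact hi (by rw [h, zero_mul])
    rw [h2]
    refine (norm_sum_le _ _).trans (le_of_eq (Finset.sum_congr rfl fun i _ => ?_))
    rw [norm_mul, one_mul]
  have h3 := Finset.sum_mul_sq_le_sq_mul_sq (s.filter (fun i => a i ≠ 0)) (fun _ => (1 : ℝ))
    (fun i => ‖a i‖ * ‖b i‖)
  have h4 : ∑ i ∈ s.filter (fun i => a i ≠ 0), (‖a i‖ * ‖b i‖) ^ 2 ≤
      ∑ i ∈ s, ‖a i‖ ^ 2 * ‖b i‖ ^ 2 := by
    refine (Finset.sum_le_sum_of_subset_of_nonneg (Finset.filter_subset _ _)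
      fun i _ _ => by positivity).trans (le_of_eq (Finset.sum_congr rfl fun i _ => ?_))
    ring
  have h5 : (0 : ℝ) ≤ ((s.filter fun i => a i ≠ 0).card : ℝ) := Nat.cast_nonneg _
  calc ‖∑ i ∈ s, a i * b i‖ ^ 2
      ≤ (∑ i ∈ s.filter (fun i => a i ≠ 0), 1 * (‖a i‖ * ‖b i‖)) ^ 2 :=
        pow_le_pow_left₀ (norm_nonneg _) h1 2
    _ ≤ _ := h3
    _ ≤ _ := by
        simp only [one_pow, Finset.sum_const, nsmul_eq_mul, mul_one]
        exact mul_le_mul_of_nonneg_left h4 h5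

theorem choice_t (n ε : ℝ) (hn : 1 ≤ n) (hε : 0 < ε) : ∃ t : ℝ, 0 < t ∧ t < 1 / 2 ∧
    (1 / (n + 1) - ε) * (1 + t) ≤ (1 - t) ^ 2 / (1 + n / (1 - 2 * t) + t) := by
  have h1 : ContinuousAt (fun t : ℝ => (1 - t) ^ 2 / (1 + n / (1 - 2 * t) + t) -
      (1 / (n + 1) - ε) * (1 + t)) 0 := by
    have h2 : (1 - 2 * (0 : ℝ)) ≠ 0 := by norm_num
    have h3 : (1 + n / (1 - 2 * (0 : ℝ)) + 0) ≠ 0 := by
      simp only [mul_zero, sub_zero, div_one, add_zero]; linarith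
    refine ContinuousAt.sub (ContinuousAt.div (by fun_prop) ?_ h3) (by fun_prop)
    refine ContinuousAt.add (ContinuousAt.add continuousAt_const
      (ContinuousAt.div continuousAt_const (by fun_prop) h2)) continuousAt_id
  have h4 : (0 : ℝ) < (fun t : ℝ => (1 - t) ^ 2 / (1 + n / (1 - 2 * t) + t) -
      (1 / (n + 1) - ε) * (1 + t)) 0 := by
    simp only [mul_zero, sub_zero, div_one, add_zero, one_pow, mul_one]
    rw [show (1 : ℝ) + n = n + 1 by ring]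
    linarith
  have h5 : ∀ᶠ t : ℝ in 𝓝 0, 0 < (1 - t) ^ 2 / (1 + n / (1 - 2 * t) + t) -
      (1 / (n + 1) - ε) * (1 + t) := h1.eventually (lt_mem_nhds h4)
  have h6 : ∀ᶠ t : ℝ in 𝓝[>] 0, 0 < t ∧ t < 1 / 2 := by
    have := Ioo_mem_nhdsGT (show (0 : ℝ) < 1 / 2 by norm_num)
    filter_upwards [this] with t ht using ht
  obtain ⟨t, h7, h8, h9⟩ := ((h5.filter_mono nhdsWithin_le_nhds).and h6).exists
  exact ⟨t, h8, h9, by linarith⟩

open scoped Classical in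
theorem pf_FIN (hIE : T_IE) (hEN : T_EN) (hSM : T_SM) (hFM : T_FM) (hHQ : T_HQ) : T_FIN := by
  intro K _ _ _ ε hε
  set n : ℕ := Module.finrank ℚ K with hn
  have hn1 : (1 : ℝ) ≤ n := by
    have : 0 < n := Module.finrank_pos
    exact_mod_cast this
  obtain ⟨t, ht0, ht1, ht2⟩ := choice_t n ε hn1 hε
  obtain ⟨q₁, hq1⟩ := hSM K t t ht0 ht1 ht0
  obtain ⟨q₂, hq2⟩ := hFM K t t ht0 ht1 ht0
  obtain ⟨c, C, q₃, hc, hq3⟩ := hHQ K
  -- a bound for the sum over the proper divisors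
  have h1 : Tendsto (fun q : ℕ => (2 ^ n * 2 ^ n * |C|) * (q : ℝ) ^ (-(1 / 2) : ℝ)) atTop (𝓝 0) := by
    have := (tendsto_rpow_neg_atTop (show (0 : ℝ) < 1 / 2 by norm_num)).comp
      tendsto_natCast_atTop_atTop
    simpa using this.const_mul (2 ^ n * 2 ^ n * |C|)
  obtain ⟨q₄, hq4⟩ := eventually_atTop.1 (h1.eventually (gt_mem_nhds ht0))
  refine ⟨max (max q₁ q₂) (max q₃ q₄), fun q hq hqq => ?_⟩
  have hqa : q₁ ≤ q := le_trans (le_trans (le_max_left _ _) (le_max_left _ _)) hqq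
  have hqb : q₂ ≤ q := le_trans (le_trans (le_max_right _ _) (le_max_left _ _)) hqq
  have hqc : q₃ ≤ q := le_trans (le_trans (le_max_left _ _) (le_max_right _ _)) hqq
  have hqd : q₄ ≤ q := le_trans (le_trans (le_max_right _ _) (le_max_right _ _)) hqq
  obtain ⟨hfin, T, σ, hT, hσ, hsum⟩ := hIE K q hq
  set N : ℝ := (nc (qi K q) (qi K q) : ℝ) with hN
  obtain ⟨hc1, hc2⟩ := hq3 q hq hqc
  have hq0 : (0 : ℝ) < q := by exact_mod_cast hq.pos
  have hNpos : 0 < N := lt_of_lt_of_le (by positivity) hc1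
  -- the number of primitive characters
  have hcard : |((Pr K (qi K q)).ncard : ℝ) - N| ≤ t * N := by
    have h2 := hsum (fun _ => 1)
    have h3 : ∀ {α : Type} (s : Set α), (∑ᶠ i ∈ s, (1 : ℂ)) = (s.ncard : ℂ) := by
      intro α s
      by_cases hs : s.Finite
      · rw [finsum_mem_eq_finite_toFinset_sum _ hs, Finset.sum_const, nsmul_eq_mul, mul_one,
          Set.ncard_eq_toFinset_card _ hs]
      · rw [Set.Infinite.ncard hs]
        rw [finsum_mem_eq_zero_of_infinite]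
        · simp
        · rw [Function.support_const (one_ne_zero)]
          simpa using hs
    rw [h3, h3] at h2
    have h4 : ((Pr K (qi K q)).ncard : ℂ) - (nc (qi K q) (qi K q) : ℂ) =
        ∑ d ∈ T, (σ d : ℂ) * (nc (qi K q) d : ℂ) := by
      rw [h2]
      simp only [nc, add_sub_cancel_left]
      exact Finset.sum_congr rfl fun d _ => by rw [h3]
    have h5 : ‖((Pr K (qi K q)).ncard : ℂ) - (nc (qi K q) (qi K q) : ℂ)‖ ≤
        ∑ d ∈ T, 2 ^ n * (|C| * (q : ℝ) ^ (-(1 / 2) : ℝ) * N) := by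
      rw [h4]
      refine (norm_sum_le _ _).trans (Finset.sum_le_sum fun d hd => ?_)
      rw [norm_mul]
      obtain ⟨hd1, hd2, hd3⟩ := hσ d hd
      refine mul_le_mul ?_ ?_ (norm_nonneg _) (by positivity)
      · rw [Complex.norm_intCast]
        exact_mod_cast hd3
      · rw [Complex.norm_natCast]
        refine ((hc2 d hd1).2 hd2).trans ?_
        gcongr
        exact le_abs_self C
    rw [Finset.sum_const, nsmul_eq_mul] at h5
    have h6 : ‖((Pr K (qi K q)).ncard : ℂ) - (nc (qi K q) (qi K q) : ℂ)‖ =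
        |((Pr K (qi K q)).ncard : ℝ) - N| := by
      have h9 : ((Pr K (qi K q)).ncard : ℂ) - (nc (qi K q) (qi K q) : ℂ) =
          ((((Pr K (qi K q)).ncard : ℝ) - N : ℝ) : ℂ) := by
        rw [hN]
        push_cast
        rfl
      rw [h9, Complex.norm_real, Real.norm_eq_abs]
    rw [h6] at h5
    refine h5.trans ?_
    have h7 : (T.card : ℝ) ≤ 2 ^ n := by exact_mod_cast hT
    have h8 := (hq4 q hqd).le
    calc (T.card : ℝ) * (2 ^ n * (|C| * (q : ℝ) ^ (-(1 / 2) : ℝ) * N))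
        ≤ 2 ^ n * (2 ^ n * (|C| * (q : ℝ) ^ (-(1 / 2) : ℝ) * N)) := by
          gcongr
      _ = (2 ^ n * 2 ^ n * |C|) * (q : ℝ) ^ (-(1 / 2) : ℝ) * N := by ring
      _ ≤ t * N := by gcongr
  rw [abs_le] at hcard
  have hf : qi K q ≠ ⊤ := by
    intro h
    rw [qi, Ideal.span_singleton_eq_top] at h
    exact absurd h (by
      intro h'
      have h4 : IsUnit ((Ideal.absNorm (Ideal.span {(q : 𝓞 K)})) : ℕ) := by
        rw [Ideal.span_singleton_eq_top.2 h', Ideal.absNorm_top]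
        exact isUnit_one
      have h5 : Ideal.absNorm (Ideal.span {(q : 𝓞 K)}) = q ^ n := by
        have := Ideal.absNorm_span_natCast (S := 𝓞 K) q
        rw [this, RingOfIntegers.rank]
      rw [h5, Nat.isUnit_iff] at h4
      have h6 : 1 < q ^ n := Nat.one_lt_pow (by
        have : 0 < n := Module.finrank_pos
        omega) hq.one_lt
      omega)
  have hex : ∀ χ ∈ Pr K (qi K q), ∃ Z, IsEnt χ Z := by
    intro χ hχ
    obtain ⟨Z, Λ, ε', h2, -⟩ := hEN K χ (by rw [show χ.f = qi K q from hχ]; exact hf)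
    exact ⟨Z, h2⟩
  refine ⟨hfin, ?_, hex, ?_⟩
  · have h2 : 0 < ((Pr K (qi K q)).ncard : ℝ) := by nlinarith [hcard.1]
    exact_mod_cast h2
  -- Cauchy-Schwarz
  set M : ℝ := (q : ℝ) ^ (1 - 2 * t) with hM
  have e1 := hq1 q hq hqa
  have e2 := hq2 q hq hqb
  rw [finsum_mem_eq_finite_toFinset_sum _ hfin] at e1 e2
  have e3 := cs_support hfin.toFinset (fun χ => cval χ) (fun χ => mol M χ.ψ)
  set W : ℝ := ((hfin.toFinset.filter fun χ => cval χ ≠ 0).card : ℝ) with hW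
  have hW2 : W ≤ ({χ | χ ∈ Pr K (qi K q) ∧ ∀ Z, IsEnt χ Z → Z (1 / 2) ≠ 0}.ncard : ℝ) := by
    rw [hW, ← Set.ncard_coe_finset]
    have : ({χ | χ ∈ Pr K (qi K q) ∧ ∀ Z, IsEnt χ Z → Z (1 / 2) ≠ 0} : Set (RCC K)).Finite :=
      hfin.subset fun χ h => h.1
    have h2 := Set.ncard_le_ncard (s := (↑(hfin.toFinset.filter fun χ => cval χ ≠ 0) :
      Set (RCC K))) (t := {χ | χ ∈ Pr K (qi K q) ∧ ∀ Z, IsEnt χ Z → Z (1 / 2) ≠ 0}) (by
        intro χ hχ
        simp only [Finset.coe_filter, Set.Finite.mem_toFinset, Set.mem_ofPred_eq] at hχ ⊢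
        refine ⟨hχ.1, fun Z hZ => ?_⟩
        rw [← cval_eq χ Z hZ]
        exact hχ.2) this
    exact_mod_cast h2
  have e4 : (1 - t) * N ≤ ‖∑ χ ∈ hfin.toFinset, cval χ * mol M χ.ψ‖ := by
    have h2 : ‖(nc (qi K q) (qi K q) : ℂ)‖ = N := by rw [Complex.norm_natCast]
    have h3 := norm_sub_norm_le (nc (qi K q) (qi K q) : ℂ)
      ((nc (qi K q) (qi K q) : ℂ) - ∑ χ ∈ hfin.toFinset, cval χ * mol M χ.ψ)
    rw [sub_sub_cancel, h2, norm_sub_rev] at h3
    linarith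
  have hden : 0 < 1 + (n : ℝ) / (1 - 2 * t) + t := by
    have : 0 < 1 - 2 * t := by linarith
    positivity
  have e5 : ((1 - t) * N) ^ 2 ≤ W * ((1 + (n : ℝ) / (1 - 2 * t) + t) * N) := by
    calc ((1 - t) * N) ^ 2 ≤ ‖∑ χ ∈ hfin.toFinset, cval χ * mol M χ.ψ‖ ^ 2 :=
          pow_le_pow_left₀ (mul_nonneg (by linarith) hNpos.le) e4 2
      _ ≤ _ := e3
      _ ≤ _ := mul_le_mul_of_nonneg_left e1 (Nat.cast_nonneg _)
  have e6 : (1 - t) ^ 2 / (1 + (n : ℝ) / (1 - 2 * t) + t) * N ≤ W := by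
    rw [div_mul_eq_mul_div, div_le_iff₀ hden]
    have h2 : ((1 - t) ^ 2 * N) * N ≤ (W * (1 + (n : ℝ) / (1 - 2 * t) + t)) * N := by
      calc ((1 - t) ^ 2 * N) * N = ((1 - t) * N) ^ 2 := by ring
        _ ≤ _ := e5
        _ = _ := by ring
    exact le_of_mul_le_mul_right h2 hNpos
  refine le_trans ?_ hW2
  refine le_trans ?_ e6
  by_cases h0 : 1 / ((n : ℝ) + 1) - ε ≤ 0
  · refine (mul_nonpos_of_nonpos_of_nonneg h0 (Nat.cast_nonneg _)).trans ?_
    positivity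
  · rw [not_le] at h0
    calc (1 / ((n : ℝ) + 1) - ε) * ((Pr K (qi K q)).ncard : ℝ)
        ≤ (1 / ((n : ℝ) + 1) - ε) * ((1 + t) * N) := by
          refine mul_le_mul_of_nonneg_left ?_ h0.le
          linarith [hcard.2]
      _ = ((1 / ((n : ℝ) + 1) - ε) * (1 + t)) * N := by ring
      _ ≤ _ := mul_le_mul_of_nonneg_right ht2 hNpos.le

end Pool.Agent.H37.CV
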