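import Pool.Agent.H37.CV.SM

/-!
# The first moment
-/

set_option autoImplicit false

open NumberField NumberField.InfinitePlace Complex Filter Topology MeasureTheory

namespace Pool.Agent.H37.CV

open Pool.Agent.H28.RC Pool.Agent.H25.HK

variable {K : Type} [Field K] [NumberField K]

theorem two_le_np (P : PrI K) : 2 ≤ np P := by
  rw [np, nm]
  have h1 : Ideal.absNorm P.1 ≠ 0 := by rw [Ne, Ideal.absNorm_eq_zero_iff]; exact P.2.2
  have h2 : Ideal.absNorm P.1 ≠ 1 := by rw [Ne, Ideal.absNorm_eq_one_iff]; exact P.2.1.ne_top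
  have h3 : 2 ≤ Ideal.absNorm P.1 := by omega
  exact_mod_cast h3

theorem nS_ge_one (S : Finset (PrI K)) : 1 ≤ nS np S := by
  rw [nS]
  calc (1 : ℝ) = ∏ P ∈ S, (1 : ℝ) := by rw [Finset.prod_const_one]
    _ ≤ ∏ P ∈ S, np P := Finset.prod_le_prod (fun _ _ => zero_le_one) fun P _ => by
        linarith [two_le_np P]

theorem fS_pos (S : Finset (PrI K)) : 0 < fS np S := by
  rw [fS]
  exact Finset.prod_pos fun P _ => by linarith [two_le_np P]

theorem fS_le_nS (S : Finset (PrI K)) : fS np S ≤ nS np S := by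
  rw [fS, nS]
  exact Finset.prod_le_prod (fun P _ => by linarith [two_le_np P]) fun P _ => by linarith

open scoped Classical in
theorem card_DM_le (M : ℝ) : ((DM K M).card : ℝ) ≤ M * GS np (PM K M) M := by
  rw [GS, Finset.mul_sum, DM]
  rw [Finset.card_eq_sum_ones, Nat.cast_sum]
  refine Finset.sum_le_sum fun S hS => ?_
  have h1 : nS np S ≤ M := by
    rw [DS, Finset.mem_filter] at hS
    exact hS.2
  have h2 := fS_pos S
  rw [← div_eq_mul_inv, le_div_iff₀ h2, Nat.cast_one, one_mul]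
  exact (fS_le_nS S).trans h1

theorem norm_RCC_le (χ : RCC K) (I : Ideal (𝓞 K)) : ‖χ.ψ I‖ ≤ 1 := by
  by_cases h1 : I = ⊥
  · rw [h1, χ.map_bot, norm_zero]; exact zero_le_one
  · by_cases h2 : I ⊔ χ.f = ⊤
    · exact (χ.norm_one I h1 h2).le
    · rw [χ.eq_zero I h2, norm_zero]; exact zero_le_one

theorem norm_mol_le (hCX : T_CX) (M : ℝ) (hM : 1 ≤ M) (χ : RCC K) :
    ‖mol M χ.ψ‖ ≤ M * GS np (PM K M) M := by
  refine le_trans ?_ (card_DM_le M)
  rw [mol]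
  refine (norm_sum_le _ _).trans ?_
  rw [Finset.card_eq_sum_ones, Nat.cast_sum]
  refine Finset.sum_le_sum fun S hS => ?_
  rw [norm_mul, norm_mul, Nat.cast_one]
  have hSA : S ⊆ PM K M := by
    rw [DM, DS, Finset.mem_filter, Finset.mem_powerset] at hS
    exact hS.1
  have h1 : ‖(xw K M S : ℂ)‖ ≤ 1 := by
    rw [Complex.norm_real, Real.norm_eq_abs]
    exact (hCX (PrI K) np (PM K M) M two_le_np hM).2.2 S hSA
  have h2 := norm_RCC_le χ (idS S)
  have h3 : ‖((nS np S ^ (-(1 / 2) : ℝ) : ℝ) : ℂ)‖ ≤ 1 := by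
    rw [Complex.norm_real, Real.norm_eq_abs, abs_of_nonneg (Real.rpow_nonneg (by
      linarith [nS_ge_one S]) _)]
    exact Real.rpow_le_one_of_one_le_of_nonpos (nS_ge_one S) (by norm_num)
  calc _ ≤ (1 : ℝ) * 1 * 1 := by gcongr
    _ = 1 := by norm_num

theorem pow_le_cnd (q : ℕ) : (q : ℝ) ^ Module.finrank ℚ K ≤ cnd K (qi K q) := by
  rw [cnd, nm, qi, Ideal.absNorm_span_natCast, RingOfIntegers.rank]
  have h1 : (1 : ℝ) ≤ |(discr K : ℝ)| := by
    have : (1 : ℤ) ≤ |discr K| := Int.one_le_abs (discr_ne_zero K)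
    exact_mod_cast this
  push_cast
  nlinarith [pow_nonneg (Nat.cast_nonneg (α := ℝ) q) (Module.finrank ℚ K)]

/-- the number of primitive characters -/
theorem ncard_Pr_le (hIE : T_IE) [IsTotallyComplex K] (q : ℕ) (hq : q.Prime) (B N : ℝ)
    (hN : (nc (qi K q) (qi K q) : ℝ) ≤ N)
    (hB : ∀ d : Ideal (𝓞 K), qi K q ≤ d → d ≠ qi K q → (nc (qi K q) d : ℝ) ≤ B) :
    ((Pr K (qi K q)).ncard : ℝ) ≤
      N + 2 ^ Module.finrank ℚ K * (2 ^ Module.finrank ℚ K * B) := by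
  obtain ⟨hfin, T, σ, hT, hσ, hsum⟩ := hIE K q hq
  set n : ℕ := Module.finrank ℚ K with hn
  have h2 := hsum (fun _ => 1)
  have h3 : ∀ {α : Type} (s : Set α), (∑ᶠ i ∈ s, (1 : ℂ)) = (s.ncard : ℂ) := by
    intro α s
    by_cases hs : s.Finite
    · rw [finsum_mem_eq_finite_toFinset_sum _ hs, Finset.sum_const, nsmul_eq_mul, mul_one,
        Set.ncard_eq_toFinset_card _ hs]
    · rw [Set.Infinite.ncard hs]
      rw [finsum_mem_eq_zero_of_infinite]
      · simp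
      · rw [Function.support_const (one_ne_zero)]
        simpa using hs
  rw [h3, h3] at h2
  have h5 : ‖((Pr K (qi K q)).ncard : ℂ)‖ ≤
      (nc (qi K q) (qi K q) : ℝ) + ∑ d ∈ T, 2 ^ n * B := by
    rw [h2]
    refine (norm_add_le _ _).trans (add_le_add ?_ ((norm_sum_le _ _).trans
      (Finset.sum_le_sum fun d hd => ?_)))
    · rw [Complex.norm_natCast]; exact le_rfl
    · rw [norm_mul, h3]
      obtain ⟨hd1, hd2, hd3⟩ := hσ d hd
      refine mul_le_mul ?_ ?_ (norm_nonneg _) (by positivity)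
      · rw [Complex.norm_intCast]
        exact_mod_cast hd3
      · rw [Complex.norm_natCast]
        exact hB d hd1 hd2
  rw [Complex.norm_natCast, Finset.sum_const, nsmul_eq_mul] at h5
  have h7 : (T.card : ℝ) ≤ 2 ^ n := by exact_mod_cast hT
  refine h5.trans (add_le_add hN ?_)
  by_cases hT0 : T = ∅
  · rw [hT0, Finset.card_empty, Nat.cast_zero, zero_mul]
    have h8 : 0 ≤ B := by
      have h9 : (⊤ : Ideal (𝓞 K)) ≠ qi K q := (qi_ne_top K q hq).symm
      exact (Nat.cast_nonneg _).trans (hB ⊤ le_top h9)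
    positivity
  · obtain ⟨d, hd⟩ := Finset.nonempty_of_ne_empty hT0
    obtain ⟨hd1, hd2, hd3⟩ := hσ d hd
    have h8 : 0 ≤ B := (Nat.cast_nonneg _).trans (hB d hd1 hd2)
    gcongr

open scoped Classical in
theorem pf_FM (hIE : T_IE) (hEN : T_EN) (hAF1 : T_AF1) (hFMO : T_FMO) (hF1 : T_F1)
    (hHQ : T_HQ) (hCX : T_CX) (hGU : T_GU) : T_FM := by
  intro K _ _ _ ε₁ η hε0 hε1 hη
  set n : ℕ := Module.finrank ℚ K with hn
  have hn0 : 0 < n := Module.finrank_pos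
  have hnR : (0 : ℝ) < n := by exact_mod_cast hn0
  set κ : ℝ := η / (3 * (2 ^ n * 2 ^ n)) with hκ
  have hκ0 : 0 < κ := by positivity
  obtain ⟨q₁, hq1⟩ := hF1 K ε₁ κ hε0 hε1 hκ0
  obtain ⟨c', C, q₂, hc', hq2⟩ := hHQ K
  obtain ⟨C₁, hC1⟩ := hAF1 K (12 * n) (by omega)
  obtain ⟨C₂, -, hC2, -⟩ := hGU K
  -- the error
  have h1 : Tendsto (fun q : ℕ => ((1 + 2 ^ n * (2 ^ n * |C|)) * |C₁| * (2 * |C₂|)) *
      (q : ℝ) ^ (-1 : ℝ)) atTop (𝓝 0) := by
    have := (tendsto_rpow_neg_atTop (show (0 : ℝ) < 1 by norm_num)).comp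
      tendsto_natCast_atTop_atTop
    simpa using this.const_mul ((1 + 2 ^ n * (2 ^ n * |C|)) * |C₁| * (2 * |C₂|))
  obtain ⟨q₃, hq3⟩ := eventually_atTop.1 (h1.eventually (gt_mem_nhds hκ0))
  refine ⟨max q₁ (max q₂ q₃), fun q hq hqq => ?_⟩
  have hqa : q₁ ≤ q := (le_max_left _ _).trans hqq
  have hqb : q₂ ≤ q := ((le_max_left _ _).trans (le_max_right _ _)).trans hqq
  have hqc : q₃ ≤ q := ((le_max_right _ _).trans (le_max_right _ _)).trans hqq
  have hq0 : (0 : ℝ) < q := by exact_mod_cast hq.pos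
  have hq1' : (1 : ℝ) < q := by exact_mod_cast hq.one_lt
  set M : ℝ := (q : ℝ) ^ (1 - 2 * ε₁) with hM
  set Q : ℝ := cnd K (qi K q) with hQ
  have hM1 : 1 ≤ M := Real.one_le_rpow hq1'.le (by linarith)
  have hMq : M < q := by
    have := Real.rpow_lt_rpow_of_exponent_lt hq1' (show 1 - 2 * ε₁ < 1 by linarith)
    rwa [Real.rpow_one] at this
  have hQq : (q : ℝ) ^ n ≤ Q := pow_le_cnd q
  have hQ0 : 0 < Q := lt_of_lt_of_le (by positivity) hQq
  have hQ1 : 1 ≤ Q := le_trans (one_le_pow₀ hq1'.le) hQq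
  have hPM : ∀ P : PrI K, qi K q ≤ P.1 → M < np P := fun P h => hMq.trans_le (le_np K q hq P h)
  obtain ⟨hfin, T, σ, hT, hσ, hsum⟩ := hIE K q hq
  set N : ℝ := (nc (qi K q) (qi K q) : ℝ) with hN
  obtain ⟨hc1, hc2⟩ := hq2 q hq hqb
  have hNpos : 0 < N := lt_of_lt_of_le (by positivity) hc1
  set X : ℝ := Xq K q with hX
  have hX0 : 0 < X := by rw [hX, Xq]; exact Real.rpow_pos_of_pos hQ0 _
  set L : Ideal (𝓞 K) → ℂ := fun d => ∑' m : {m : Ideal (𝓞 K) // (m, ⊤) ∈ CP (qi K q) d},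
    lam X M m.1 * ((nm m.1 ^ (-(1 / 2) : ℝ) : ℝ) : ℂ) with hL
  obtain ⟨hL1, hL2⟩ := hq1 q hq hqa
  have hcard : ((Pr K (qi K q)).ncard : ℝ) ≤ (1 + 2 ^ n * (2 ^ n * |C|)) * N := by
    have h2 := ncard_Pr_le hIE (K := K) q hq (|C| * N) N le_rfl (by
      intro d hd hdq
      refine ((hc2 d hd).2 hdq).trans ?_
      have h3 : (q : ℝ) ^ (-(1 / 2) : ℝ) ≤ 1 :=
        Real.rpow_le_one_of_one_le_of_nonpos hq1'.le (by norm_num)
      have h4 : C * (q : ℝ) ^ (-(1 / 2) : ℝ) ≤ |C| * 1 :=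
        mul_le_mul (le_abs_self C) h3 (by positivity) (abs_nonneg _)
      rw [mul_one] at h4
      exact mul_le_mul_of_nonneg_right h4 hNpos.le)
    refine h2.trans (le_of_eq ?_)
    ring
  -- the main part
  have hmain : (∑ᶠ χ ∈ Pr K (qi K q), A1 X χ.ψ * mol M χ.ψ) =
      N * L (qi K q) + ∑ d ∈ T, (σ d : ℂ) * (nc (qi K q) d * L d) := by
    rw [hsum (fun ψ => A1 X ψ * mol M ψ),
      (hFMO K (qi K q) (qi K q) X M (qi_ne_bot K q hq) le_rfl hX0 hM1 hPM).2]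
    congr 1
    exact Finset.sum_congr rfl fun d hd => by
      rw [(hFMO K (qi K q) d X M (qi_ne_bot K q hq) (hσ d hd).1 hX0 hM1 hPM).2]
  have hdiff : ‖(∑ᶠ χ ∈ Pr K (qi K q), cval χ * mol M χ.ψ) -
      ∑ᶠ χ ∈ Pr K (qi K q), A1 X χ.ψ * mol M χ.ψ‖ ≤ κ * N := by
    rw [finsum_mem_eq_finite_toFinset_sum _ hfin, finsum_mem_eq_finite_toFinset_sum _ hfin,
      ← Finset.sum_sub_distrib]
    have h2 : ∀ χ ∈ hfin.toFinset, ‖cval χ * mol M χ.ψ - A1 X χ.ψ * mol M χ.ψ‖ ≤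
        (|C₁| * (2 * |C₂|)) * (q : ℝ) ^ (-1 : ℝ) := by
      intro χ hχ
      have hχ' : χ.f = qi K q := (Set.Finite.mem_toFinset hfin).1 hχ
      have hf : χ.f ≠ ⊤ := by rw [hχ']; exact qi_ne_top K q hq
      obtain ⟨Z, Λ, ε', hZ, -⟩ := hEN K χ hf
      have h3 := hC1 χ hf Z hZ X hX0
      rw [← cval_eq χ Z hZ, hχ', ← hQ] at h3
      rw [← sub_mul, norm_mul]
      have h4 : (Q / X) ^ (12 * n) ≤ (q : ℝ) ^ (-3 : ℝ) := by
        have h5 : Q / X = Q ^ (-(1 / (4 * (n : ℝ)))) := by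
          rw [hX, Xq, ← hQ, ← hn, Real.rpow_add hQ0, Real.rpow_one, Real.rpow_neg hQ0.le]
          field_simp
        rw [h5, ← Real.rpow_natCast, ← Real.rpow_mul hQ0.le]
        have h6 : -(1 / (4 * (n : ℝ))) * ((12 * n : ℕ) : ℝ) = -3 := by
          push_cast
          field_simp
          norm_num
        rw [h6]
        refine Real.rpow_le_rpow_of_nonpos hq0 ?_ (by norm_num)
        refine le_trans ?_ hQq
        exact le_self_pow₀ hq1'.le hn0.ne'
      have h5 : ‖mol M χ.ψ‖ ≤ (q : ℝ) * (|C₂| * (2 * q)) := by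
        refine (norm_mol_le hCX M hM1 χ).trans ?_
        have h6 : GS np (PM K M) M ≤ |C₂| * (2 * q) := by
          refine (hC2 M hM1).trans ?_
          have h7 : 1 + Real.log M ≤ 2 * q := by
            have h8 : Real.log M ≤ q := by
              calc Real.log M ≤ M - 1 := Real.log_le_sub_one_of_pos (by linarith)
                _ ≤ q := by linarith
            linarith
          have h8 : 0 ≤ 1 + Real.log M := by
            have := Real.log_nonneg hM1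
            linarith
          exact mul_le_mul (le_abs_self _) h7 h8 (abs_nonneg _)
        have h9 : 0 ≤ GS np (PM K M) M := by
          rw [GS]
          exact Finset.sum_nonneg fun S _ => (inv_pos.2 (fS_pos S)).le
        exact mul_le_mul hMq.le h6 h9 hq0.le
      calc ‖cval χ - A1 X χ.ψ‖ * ‖mol M χ.ψ‖
          ≤ (|C₁| * (q : ℝ) ^ (-3 : ℝ)) * ((q : ℝ) * (|C₂| * (2 * q))) := by
            refine mul_le_mul (h3.trans ?_) h5 (norm_nonneg _) (by positivity)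
            exact mul_le_mul (le_abs_self _) h4 (by positivity) (abs_nonneg _)
        _ = (|C₁| * (2 * |C₂|)) * ((q : ℝ) ^ (-3 : ℝ) * (q : ℝ) ^ (2 : ℕ)) := by ring
        _ = (|C₁| * (2 * |C₂|)) * (q : ℝ) ^ (-1 : ℝ) := by
            rw [← Real.rpow_natCast, ← Real.rpow_add hq0]
            norm_num
    refine (norm_sum_le _ _).trans ((Finset.sum_le_sum h2).trans ?_)
    rw [Finset.sum_const, nsmul_eq_mul, ← Set.ncard_eq_toFinset_card _ hfin]
    calc ((Pr K (qi K q)).ncard : ℝ) * ((|C₁| * (2 * |C₂|)) * (q : ℝ) ^ (-1 : ℝ))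
        ≤ ((1 + 2 ^ n * (2 ^ n * |C|)) * N) * ((|C₁| * (2 * |C₂|)) * (q : ℝ) ^ (-1 : ℝ)) := by
          gcongr
      _ = ((1 + 2 ^ n * (2 ^ n * |C|)) * |C₁| * (2 * |C₂|)) * (q : ℝ) ^ (-1 : ℝ) * N := by ring
      _ ≤ κ * N := by
          have := (hq3 q hqc).le
          gcongr
  have hB : ‖(N * L (qi K q) + ∑ d ∈ T, (σ d : ℂ) * (nc (qi K q) d * L d)) - N‖ ≤
      κ * N + (2 ^ n * 2 ^ n) * (κ * N) := by
    have h2 : (N * L (qi K q) + ∑ d ∈ T, (σ d : ℂ) * (nc (qi K q) d * L d)) - N =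
        (N : ℂ) * (L (qi K q) - 1) + ∑ d ∈ T, (σ d : ℂ) * (nc (qi K q) d * L d) := by ring
    rw [h2]
    refine (norm_add_le _ _).trans (add_le_add ?_ ?_)
    · rw [norm_mul, Complex.norm_real, Real.norm_eq_abs, abs_of_pos hNpos, mul_comm]
      exact mul_le_mul_of_nonneg_right hL1 hNpos.le
    · have h3 : ∀ d ∈ T, ‖(σ d : ℂ) * (nc (qi K q) d * L d)‖ ≤ 2 ^ n * (κ * N) := by
        intro d hd
        obtain ⟨hd1, hd2, hd3⟩ := hσ d hd
        rw [norm_mul, norm_mul, Complex.norm_natCast]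
        refine mul_le_mul ?_ (hL2 d hd1 hd2) (by positivity) (by positivity)
        rw [Complex.norm_intCast]
        exact_mod_cast hd3
      refine (norm_sum_le _ _).trans ((Finset.sum_le_sum h3).trans ?_)
      rw [Finset.sum_const, nsmul_eq_mul]
      have h7 : (T.card : ℝ) ≤ 2 ^ n := by exact_mod_cast hT
      calc (T.card : ℝ) * (2 ^ n * (κ * N)) ≤ 2 ^ n * (2 ^ n * (κ * N)) := by gcongr
        _ = _ := by ring
  have hp1 : (1 : ℝ) ≤ 2 ^ n * 2 ^ n := by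
    have : (1 : ℝ) ≤ 2 ^ n := one_le_pow₀ (by norm_num)
    nlinarith
  have hk1 : 3 * ((2 ^ n * 2 ^ n) * (κ * N)) = η * N := by
    rw [hκ]
    field_simp
  have hk2 : κ * N ≤ (2 ^ n * 2 ^ n) * (κ * N) := by
    have : 0 < κ * N := by positivity
    nlinarith
  have h2 : (∑ᶠ χ ∈ Pr K (qi K q), cval χ * mol M χ.ψ) - N =
      ((∑ᶠ χ ∈ Pr K (qi K q), cval χ * mol M χ.ψ) -
        ∑ᶠ χ ∈ Pr K (qi K q), A1 X χ.ψ * mol M χ.ψ) +
      ((N * L (qi K q) + ∑ d ∈ T, (σ d : ℂ) * (nc (qi K q) d * L d)) - N) := by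
    rw [hmain]
    ring
  have h3 : ((nc (qi K q) (qi K q) : ℕ) : ℂ) = (N : ℂ) := by rw [hN]; push_cast; rfl
  rw [h3, h2]
  refine (norm_add_le _ _).trans ?_
  linarith

end Pool.Agent.H37.CV
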