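import Pool.Agent.H37.CV.FIN

/-!
# The second moment
-/

set_option autoImplicit false

open NumberField NumberField.InfinitePlace Complex Filter Topology MeasureTheory

namespace Pool.Agent.H37.CV

open Pool.Agent.H28.RC Pool.Agent.H25.HK

theorem tsum_norm_le' {ι : Type} (S : Set ι) (g : ι → ℝ) (hg : ∀ p, 0 ≤ g p) (B : ℝ)
    (hB : ∀ X : Finset ι, (∀ p ∈ X, p ∈ S) → ∑ p ∈ X, g p ≤ B) :
    Summable (fun p : S => g p.1) ∧ ∑' p : S, g p.1 ≤ B := by
  have h1 : ∀ Y : Finset S, ∑ p ∈ Y, g p.1 ≤ B := by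
    intro Y
    have h2 := hB (Y.map ⟨Subtype.val, Subtype.val_injective⟩) (by
      intro p hp
      obtain ⟨y, -, rfl⟩ := Finset.mem_map.1 hp
      exact y.2)
    rwa [Finset.sum_map] at h2
  have h3 : Summable (fun p : S => g p.1) := summable_of_sum_le (fun p => hg _) h1
  exact ⟨h3, h3.tsum_le_of_sum_le h1⟩

theorem qi_ne_top (K : Type) [Field K] [NumberField K] (q : ℕ) (hq : q.Prime) :
    qi K q ≠ ⊤ := by
  intro h
  rw [qi, Ideal.span_singleton_eq_top] at h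
  have h4 : IsUnit ((Ideal.absNorm (Ideal.span {(q : 𝓞 K)})) : ℕ) := by
    rw [Ideal.span_singleton_eq_top.2 h, Ideal.absNorm_top]
    exact isUnit_one
  have h5 : Ideal.absNorm (Ideal.span {(q : 𝓞 K)}) = q ^ Module.finrank ℚ K := by
    have := Ideal.absNorm_span_natCast (S := 𝓞 K) q
    rw [this, RingOfIntegers.rank]
  rw [h5, Nat.isUnit_iff] at h4
  have h6 : 1 < q ^ Module.finrank ℚ K := Nat.one_lt_pow (by
    have : 0 < Module.finrank ℚ K := Module.finrank_pos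
    omega) hq.one_lt
  omega

theorem qi_ne_bot (K : Type) [Field K] [NumberField K] (q : ℕ) (hq : q.Prime) :
    qi K q ≠ ⊥ := by
  rw [qi, Ne, Ideal.span_singleton_eq_bot]
  exact_mod_cast hq.ne_zero

/-- the primes over `q` have norm at least `q` -/
theorem le_np (K : Type) [Field K] [NumberField K] (q : ℕ) (hq : q.Prime) (P : PrI K)
    (h : qi K q ≤ P.1) : (q : ℝ) ≤ np P := by
  have h1 : (q : 𝓞 K) ∈ P.1 := h (Ideal.mem_span_singleton_self _)
  have h2 : Ideal.absNorm P.1 ∣ Ideal.absNorm (Ideal.span {(q : 𝓞 K)}) :=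
    Ideal.absNorm_dvd_absNorm_of_le (by rwa [Ideal.span_singleton_le_iff_mem])
  rw [Ideal.absNorm_span_natCast] at h2
  obtain ⟨k, -, h3⟩ := (Nat.dvd_prime_pow hq).1 h2
  have h4 : k ≠ 0 := by
    rintro rfl
    rw [pow_zero, Ideal.absNorm_eq_one_iff] at h3
    exact P.2.1.ne_top h3
  have h5 : q ≤ Ideal.absNorm P.1 := by
    rw [h3]
    exact Nat.le_self_pow h4 q
  rw [np, nm]
  exact_mod_cast h5

open scoped Classical in
theorem pf_SM (hIE : T_IE) (hEN : T_EN) (hAF2 : T_AF2) (hSMO : T_SMO) (hDA : T_DA)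
    (hDR : T_DR) (hDS : T_DS) (hDL : T_DL) (hRL : T_RL) (hHQ : T_HQ) : T_SM := by
  intro K _ _ _ ε₁ η hε0 hε1 hη
  set n : ℕ := Module.finrank ℚ K with hn
  obtain ⟨c, hc, hRL⟩ := hRL K
  set κ : ℝ := η / (16 * (2 ^ n * 2 ^ n)) with hκ
  have hκ0 : 0 < κ := by positivity
  obtain ⟨q₁, hq1⟩ := hDA K ε₁ (η / 4) hε0 hε1 (by positivity)
  obtain ⟨q₂, hq2⟩ := hDR K ε₁ κ hε0 hε1 hκ0
  obtain ⟨q₃, hq3⟩ := hDL K ε₁ κ c hε0 hε1 hκ0 hc
  obtain ⟨C₁, hC1⟩ := hDS K ε₁ (1 / 4) hε0 hε1 (by norm_num)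
  obtain ⟨c', C, q₄, hc', hq4⟩ := hHQ K
  have h1 : Tendsto (fun q : ℕ => (|C| * |C₁|) * (q : ℝ) ^ (-(1 / 4) : ℝ)) atTop (𝓝 0) := by
    have := (tendsto_rpow_neg_atTop (show (0 : ℝ) < 1 / 4 by norm_num)).comp
      tendsto_natCast_atTop_atTop
    simpa using this.const_mul (|C| * |C₁|)
  obtain ⟨q₅, hq5⟩ := eventually_atTop.1 (h1.eventually (gt_mem_nhds hκ0))
  refine ⟨max (max q₁ q₂) (max q₃ (max q₄ q₅)), fun q hq hqq => ?_⟩
  have hqa : q₁ ≤ q := le_trans (le_trans (le_max_left _ _) (le_max_left _ _)) hqq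
  have hqb : q₂ ≤ q := le_trans (le_trans (le_max_right _ _) (le_max_left _ _)) hqq
  have hqc : q₃ ≤ q := le_trans (le_trans (le_max_left _ _) (le_max_right _ _)) hqq
  have hqd : q₄ ≤ q := le_trans (le_trans (le_max_left _ _)
    ((le_max_right _ _).trans (le_max_right _ _))) hqq
  have hqe : q₅ ≤ q := le_trans (le_trans (le_max_right _ _)
    ((le_max_right _ _).trans (le_max_right _ _))) hqq
  have hq0 : (0 : ℝ) < q := by exact_mod_cast hq.pos
  have hq1' : (1 : ℝ) < q := by exact_mod_cast hq.one_lt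
  set M : ℝ := (q : ℝ) ^ (1 - 2 * ε₁) with hM
  set Q : ℝ := cnd K (qi K q) with hQ
  have hM1 : 1 ≤ M := Real.one_le_rpow hq1'.le (by linarith)
  have hMq : M < q := by
    have := Real.rpow_lt_rpow_of_exponent_lt hq1' (show 1 - 2 * ε₁ < 1 by linarith)
    rwa [Real.rpow_one] at this
  have hQ0 : 0 < Q := by
    rw [hQ, cnd]
    refine mul_pos (abs_pos.2 (by exact_mod_cast discr_ne_zero K)) ?_
    rw [nm]
    exact_mod_cast Nat.pos_of_ne_zero (by
      rw [Ne, Ideal.absNorm_eq_zero_iff]; exact qi_ne_bot K q hq)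
  have hPM : ∀ P : PrI K, qi K q ≤ P.1 → M < np P := fun P h => hMq.trans_le (le_np K q hq P h)
  obtain ⟨hfin, T, σ, hT, hσ, hsum⟩ := hIE K q hq
  set N : ℝ := (nc (qi K q) (qi K q) : ℝ) with hN
  obtain ⟨hc1, hc2⟩ := hq4 q hq hqd
  have hNpos : 0 < N := lt_of_lt_of_le (by positivity) hc1
  set D : Ideal (𝓞 K) × Ideal (𝓞 K) → ℂ := fun p => Dd (qi K q) Q M p.1 p.2 with hD
  -- the opened second moment for each divisor
  have hopen : ∀ d : Ideal (𝓞 K), qi K q ≤ d →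
      ∑ᶠ ψ ∈ Ch (qi K q) d, 2 * (A2 Q ψ * ((‖mol M ψ‖ ^ 2 : ℝ) : ℂ)) =
        2 * (nc (qi K q) d * ∑' p : CP (qi K q) d, D p.1) := by
    intro d hd
    rw [← mul_finsum_mem, (hSMO K (qi K q) d Q M (qi_ne_bot K q hq) hd hQ0 hM1 hPM).2]
  have hnorm : ∀ d : Ideal (𝓞 K), qi K q ≤ d →
      Summable (fun p : CP (qi K q) d => ‖D p.1‖) := fun d hd =>
    (hSMO K (qi K q) d Q M (qi_ne_bot K q hq) hd hQ0 hM1 hPM).1
  -- the proper divisors
  have hprop : ∀ d : Ideal (𝓞 K), qi K q ≤ d → d ≠ qi K q →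
      (nc (qi K q) d : ℝ) * ‖∑' p : CP (qi K q) d, D p.1‖ ≤ 2 * κ * N := by
    intro d hd hdq
    have h2 : (nc (qi K q) d : ℝ) ≤ |C| * (q : ℝ) ^ (-(1 / 2) : ℝ) * N := by
      refine ((hc2 d hd).2 hdq).trans ?_
      gcongr
      exact le_abs_self C
    have h3 : (nc (qi K q) d : ℝ) * ∑' p : CP (qi K q) d, ‖D p.1‖ ≤ 2 * κ * N := by
      rw [← tsum_mul_left]
      refine (tsum_norm_le' (CP (qi K q) d) (fun p => (nc (qi K q) d : ℝ) * ‖D p‖)
        (fun p => by positivity) (2 * κ * N) ?_).2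
      intro X hX
      rw [← Finset.mul_sum]
      rw [← Finset.sum_filter_add_sum_filter_not X (fun p =>
        c * nm d ^ 2 ≤ nm p.1 * nm p.2 * (q : ℝ) ^ Module.finrank ℚ K), mul_add]
      have h4 := hq3 q hq hqc d hd (X.filter fun p =>
        c * nm d ^ 2 ≤ nm p.1 * nm p.2 * (q : ℝ) ^ Module.finrank ℚ K) (by
          intro p hp
          rw [Finset.mem_filter] at hp
          exact ⟨hX p hp.1, hp.2⟩)
      have h5 := hC1 q hq (X.filter fun p =>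
        ¬ c * nm d ^ 2 ≤ nm p.1 * nm p.2 * (q : ℝ) ^ Module.finrank ℚ K) (by
          intro p hp
          rw [Finset.mem_filter, not_le] at hp
          obtain ⟨y₁, y₂, hy, -⟩ := hRL q hq d hd p (hX p hp.1) hp.2
          exact ⟨(hX p hp.1).2.2.1, y₁, y₂, hy⟩)
      have h6 : (nc (qi K q) d : ℝ) * ∑ p ∈ X.filter (fun p =>
          ¬ c * nm d ^ 2 ≤ nm p.1 * nm p.2 * (q : ℝ) ^ Module.finrank ℚ K), ‖D p‖ ≤ κ * N := by
        calc _ ≤ (|C| * (q : ℝ) ^ (-(1 / 2) : ℝ) * N) * (|C₁| * (q : ℝ) ^ (1 / 4 : ℝ)) := by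
              refine mul_le_mul h2 (h5.trans ?_) (Finset.sum_nonneg fun _ _ => norm_nonneg _)
                (by positivity)
              gcongr
              exact le_abs_self C₁
          _ = ((|C| * |C₁|) * (q : ℝ) ^ (-(1 / 4) : ℝ)) * N := by
              rw [show (-(1 / 4) : ℝ) = -(1 / 2) + 1 / 4 by norm_num, Real.rpow_add hq0]
              ring
          _ ≤ κ * N := by
              gcongr
              exact (hq5 q hqe).le
      linarith
    refine le_trans ?_ h3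
    refine mul_le_mul_of_nonneg_left ?_ (Nat.cast_nonneg _)
    exact norm_tsum_le_tsum_norm (hnorm d hd)
  -- the main term
  have htop : ((⊤, ⊤) : Ideal (𝓞 K) × Ideal (𝓞 K)) ∈ CP (qi K q) (qi K q) := by
    refine ⟨top_ne_bot, top_ne_bot, top_sup_eq _, top_sup_eq _, top_sup_eq _, 1, 1, one_ne_zero,
      one_ne_zero, ?_, ?_, ?_, rfl⟩
    · rw [Ideal.span_singleton_one, top_sup_eq]
    · rw [Ideal.span_singleton_one, top_sup_eq]
    · rw [sub_self]; exact Ideal.zero_mem _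
  have hmain : ‖(∑' p : CP (qi K q) (qi K q), D p.1) - D (⊤, ⊤)‖ ≤ 2 * κ := by
    have h2 := (hnorm (qi K q) le_rfl).of_norm
    have h3 := h2.tsum_eq_add_tsum_ite ⟨(⊤, ⊤), htop⟩
    rw [h3, add_sub_cancel_left]
    set G : Ideal (𝓞 K) × Ideal (𝓞 K) → ℝ := fun p => if p = (⊤, ⊤) then 0 else ‖D p‖ with hG
    have hG0 : ∀ p, 0 ≤ G p := by
      intro p
      rw [hG]
      dsimp only
      split_ifs
      · exact le_rfl
      · exact norm_nonneg _
    have h4 : ∀ p : CP (qi K q) (qi K q),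
        ‖(if p = ⟨(⊤, ⊤), htop⟩ then 0 else D p.1 : ℂ)‖ = G p.1 := by
      intro p
      rw [hG]
      dsimp only
      by_cases h5 : p.1 = (⊤, ⊤)
      · rw [if_pos h5, if_pos (Subtype.ext h5), norm_zero]
      · rw [if_neg h5, if_neg (fun h6 => h5 (congrArg Subtype.val h6))]
    have h5 := tsum_norm_le' (CP (qi K q) (qi K q)) G hG0 (2 * κ) (by
      intro X hX
      have h6 : ∑ p ∈ X, G p = ∑ p ∈ X.filter (fun p => p ≠ (⊤, ⊤)), ‖D p‖ := by
        rw [Finset.sum_filter]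
        refine Finset.sum_congr rfl fun p _ => ?_
        rw [hG]
        dsimp only
        by_cases h7 : p = (⊤, ⊤)
        · rw [if_pos h7, if_neg (by simpa using h7)]
        · rw [if_neg h7, if_pos h7]
      rw [h6]
      rw [← Finset.sum_filter_add_sum_filter_not (X.filter (fun p => p ≠ (⊤, ⊤))) (fun p =>
        c * nm (qi K q) ^ 2 ≤ nm p.1 * nm p.2 * (q : ℝ) ^ Module.finrank ℚ K)]
      have h7 := hq3 q hq hqc (qi K q) le_rfl ((X.filter (fun p => p ≠ (⊤, ⊤))).filter fun p =>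
        c * nm (qi K q) ^ 2 ≤ nm p.1 * nm p.2 * (q : ℝ) ^ Module.finrank ℚ K) (by
          intro p hp
          rw [Finset.mem_filter, Finset.mem_filter] at hp
          exact ⟨hX p hp.1.1, hp.2⟩)
      have h8 := hq2 q hq hqb ((X.filter (fun p => p ≠ (⊤, ⊤))).filter fun p =>
        ¬ c * nm (qi K q) ^ 2 ≤ nm p.1 * nm p.2 * (q : ℝ) ^ Module.finrank ℚ K) (by
          intro p hp
          rw [Finset.mem_filter, Finset.mem_filter, not_le] at hp
          obtain ⟨y₁, y₂, hy, hy'⟩ := hRL q hq (qi K q) le_rfl p (hX p hp.1.1) hp.2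
          exact ⟨hX p hp.1.1, hp.1.2, y₁, y₂, hy, hy' rfl⟩)
      have h9 : ∑ p ∈ (X.filter (fun p => p ≠ (⊤, ⊤))).filter (fun p =>
          c * nm (qi K q) ^ 2 ≤ nm p.1 * nm p.2 * (q : ℝ) ^ Module.finrank ℚ K), ‖D p‖ ≤ κ := by
        rw [mul_comm κ] at h7
        exact le_of_mul_le_mul_left h7 hNpos
      linarith)
    calc ‖∑' p : CP (qi K q) (qi K q), (if p = ⟨(⊤, ⊤), htop⟩ then 0 else D p.1 : ℂ)‖
        ≤ ∑' p : CP (qi K q) (qi K q), ‖(if p = ⟨(⊤, ⊤), htop⟩ then 0 else D p.1 : ℂ)‖ := by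
          refine norm_tsum_le_tsum_norm ?_
          simp only [h4]
          exact h5.1
      _ = ∑' p : CP (qi K q) (qi K q), G p.1 := tsum_congr h4
      _ ≤ 2 * κ := h5.2
  -- the sum over the primitive characters
  have hQχ : ∀ χ ∈ Pr K (qi K q), ((‖cval χ‖ ^ 2 * ‖mol M χ.ψ‖ ^ 2 : ℝ) : ℂ) =
      2 * (A2 Q χ.ψ * ((‖mol M χ.ψ‖ ^ 2 : ℝ) : ℂ)) := by
    intro χ hχ
    have hχ' : χ.f = qi K q := hχ
    have hf : χ.f ≠ ⊤ := by rw [hχ']; exact qi_ne_top K q hq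
    obtain ⟨Z, Λ, ε', hZ, -⟩ := hEN K χ hf
    have h2 := hAF2 K χ hf Z hZ
    rw [Complex.ofReal_mul, cval_eq χ Z hZ, h2, hχ', hQ, mul_assoc]
  have hall : ((∑ᶠ χ ∈ Pr K (qi K q), ‖cval χ‖ ^ 2 * ‖mol M χ.ψ‖ ^ 2 : ℝ) : ℂ) =
      2 * (N * ∑' p : CP (qi K q) (qi K q), D p.1) +
        ∑ d ∈ T, (σ d : ℂ) * (2 * (nc (qi K q) d * ∑' p : CP (qi K q) d, D p.1)) := by
    rw [finsum_mem_eq_finite_toFinset_sum _ hfin, Complex.ofReal_sum]
    have h2 := hsum (fun ψ => 2 * (A2 Q ψ * ((‖mol M ψ‖ ^ 2 : ℝ) : ℂ)))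
    rw [finsum_mem_eq_finite_toFinset_sum _ hfin] at h2
    rw [Finset.sum_congr rfl fun χ hχ => hQχ χ (by simpa using hχ), h2, hopen _ le_rfl]
    congr 1
    exact Finset.sum_congr rfl fun d hd => by rw [hopen d (hσ d hd).1]
  have hre : (∑ᶠ χ ∈ Pr K (qi K q), ‖cval χ‖ ^ 2 * ‖mol M χ.ψ‖ ^ 2) =
      (2 * (N * ∑' p : CP (qi K q) (qi K q), D p.1) +
        ∑ d ∈ T, (σ d : ℂ) * (2 * (nc (qi K q) d * ∑' p : CP (qi K q) d, D p.1)) : ℂ).re := by
    rw [← hall, Complex.ofReal_re]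
  rw [hre, Complex.add_re]
  have hA : (2 * (N * ∑' p : CP (qi K q) (qi K q), D p.1) : ℂ).re ≤
      (1 + (n : ℝ) / (1 - 2 * ε₁) + η / 4 + 4 * κ) * N := by
    have h2 : (2 * (N * ∑' p : CP (qi K q) (qi K q), D p.1) : ℂ) =
        (N : ℂ) * (2 * D (⊤, ⊤)) + (N : ℂ) * (2 * ((∑' p : CP (qi K q) (qi K q), D p.1) -
          D (⊤, ⊤))) := by ring
    rw [h2, Complex.add_re, Complex.re_ofReal_mul, Complex.re_ofReal_mul]
    have h3 := hq1 q hq hqa
    have h4 : (2 * ((∑' p : CP (qi K q) (qi K q), D p.1) - D (⊤, ⊤))).re ≤ 4 * κ := by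
      refine (Complex.re_le_norm _).trans ?_
      rw [norm_mul, Complex.norm_ofNat]
      linarith
    have h5 : N * (2 * D (⊤, ⊤)).re ≤ N * (1 + (n : ℝ) / (1 - 2 * ε₁) + η / 4) :=
      mul_le_mul_of_nonneg_left h3 hNpos.le
    have h6 := mul_le_mul_of_nonneg_left h4 hNpos.le
    nlinarith
  have hB : (∑ d ∈ T, (σ d : ℂ) * (2 * (nc (qi K q) d * ∑' p : CP (qi K q) d, D p.1))).re ≤
      (2 ^ n * 2 ^ n) * (4 * κ * N) := by
    refine (Complex.re_le_norm _).trans ?_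
    have h2 : ∀ d ∈ T, ‖(σ d : ℂ) * (2 * (nc (qi K q) d * ∑' p : CP (qi K q) d, D p.1))‖ ≤
        2 ^ n * (4 * κ * N) := by
      intro d hd
      obtain ⟨hd1, hd2, hd3⟩ := hσ d hd
      rw [norm_mul, norm_mul, norm_mul, Complex.norm_ofNat, Complex.norm_natCast]
      refine mul_le_mul ?_ ?_ (by positivity) (by positivity)
      · rw [Complex.norm_intCast]
        exact_mod_cast hd3
      · have := hprop d hd1 hd2
        linarith
    refine (norm_sum_le _ _).trans ((Finset.sum_le_sum h2).trans ?_)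
    rw [Finset.sum_const, nsmul_eq_mul]
    have h7 : (T.card : ℝ) ≤ 2 ^ n := by exact_mod_cast hT
    calc (T.card : ℝ) * (2 ^ n * (4 * κ * N)) ≤ 2 ^ n * (2 ^ n * (4 * κ * N)) := by gcongr
      _ = _ := by ring
  have hp1 : (1 : ℝ) ≤ 2 ^ n * 2 ^ n := by
    have : (1 : ℝ) ≤ 2 ^ n := one_le_pow₀ (by norm_num)
    nlinarith
  have hk1 : (2 ^ n * 2 ^ n) * (4 * κ * N) = η / 4 * N := by
    rw [hκ]
    field_simp
    norm_num
  have hk2 : 4 * κ ≤ η / 4 := by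
    rw [hκ, div_eq_mul_inv η (16 * _)]
    have : (16 * ((2 : ℝ) ^ n * 2 ^ n))⁻¹ ≤ 16⁻¹ := by
      apply inv_anti₀ (by norm_num)
      linarith
    nlinarith
  have hk3 : 4 * κ * N ≤ η / 4 * N := mul_le_mul_of_nonneg_right hk2 hNpos.le
  nlinarith [mul_pos hη hNpos]

end Pool.Agent.H37.CV
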