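import Pool.Agent.H37.CV.OR
import Pool.Agent.H37.CV.SM

/-!
# Primitive characters by inclusion and exclusion
-/

set_option autoImplicit false

open NumberField NumberField.InfinitePlace Complex Filter Topology MeasureTheory

namespace Pool.Agent.H37.CV

open Pool.Agent.H28.RC Pool.Agent.H25.HK

variable {K : Type} [Field K] [NumberField K]

open scoped Classical in
theorem incl_excl {α β : Type} (U : Finset β) (PP : Finset α) (A : α → β → Prop) (f : β → ℂ) :
    ∑ x ∈ U.filter (fun x => ∀ P ∈ PP, ¬ A P x), f x =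
      ∑ s ∈ PP.powerset, (-1 : ℂ) ^ s.card * ∑ x ∈ U.filter (fun x => ∀ P ∈ s, A P x), f x := by
  have h1 : ∀ x, (if ∀ P ∈ PP, ¬ A P x then (1 : ℂ) else 0) =
      ∑ s ∈ PP.powerset, (-1 : ℂ) ^ s.card * if ∀ P ∈ s, A P x then 1 else 0 := by
    intro x
    have h2 : (if ∀ P ∈ PP, ¬ A P x then (1 : ℂ) else 0) =
        ∏ P ∈ PP, ((-(if A P x then 1 else 0)) + 1) := by
      by_cases h : ∀ P ∈ PP, ¬ A P x
      · rw [if_pos h, Finset.prod_eq_one]
        intro P hP
        rw [if_neg (h P hP)]; ring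
      · rw [if_neg h]
        push Not at h
        obtain ⟨P, hP, hPx⟩ := h
        rw [Finset.prod_eq_zero hP]
        rw [if_pos hPx]; ring
    rw [h2, Finset.prod_add]
    refine Finset.sum_congr rfl fun s hs => ?_
    rw [Finset.prod_const_one, mul_one]
    by_cases h : ∀ P ∈ s, A P x
    · rw [if_pos h, mul_one, Finset.prod_congr rfl (g := fun _ => (-1 : ℂ)) (fun P hP => by
        rw [if_pos (h P hP)]), Finset.prod_const]
    · rw [if_neg h, mul_zero]
      push Not at h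
      obtain ⟨P, hP, hPx⟩ := h
      rw [Finset.prod_eq_zero hP]
      rw [if_neg hPx]; ring
  rw [Finset.sum_filter]
  have h2 : ∀ x ∈ U, (if ∀ P ∈ PP, ¬ A P x then f x else 0) =
      ∑ s ∈ PP.powerset, (-1 : ℂ) ^ s.card * if ∀ P ∈ s, A P x then f x else 0 := by
    intro x _
    have h3 : (if ∀ P ∈ PP, ¬ A P x then f x else 0) =
        (if ∀ P ∈ PP, ¬ A P x then (1 : ℂ) else 0) * f x := by
      split_ifs <;> simp
    rw [h3, h1, Finset.sum_mul]
    refine Finset.sum_congr rfl fun s _ => ?_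
    split_ifs <;> simp
  rw [Finset.sum_congr rfl h2, Finset.sum_comm]
  refine Finset.sum_congr rfl fun s _ => ?_
  rw [Finset.sum_filter, Finset.mul_sum]

/-- an element which is congruent to `a` modulo `d₁` and to `b` modulo `d₂` and is prime to `m` -/
theorem exists_cong (m d₁ d₂ : Ideal (𝓞 K)) (hm : m ≠ ⊥) (hm1 : m ≤ d₁) (hm2 : m ≤ d₂)
    (a b : 𝓞 K) (ha : Ideal.span {a} ⊔ m = ⊤) (hb : Ideal.span {b} ⊔ m = ⊤)
    (hab : a - b ∈ d₁ ⊔ d₂) : ∃ c : 𝓞 K, Ideal.span {c} ⊔ m = ⊤ ∧ a - c ∈ d₁ ∧ b - c ∈ d₂ := by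
  classical
  obtain ⟨x, hx, y, hy, hxy⟩ := Submodule.mem_sup.1 hab
  set c₀ : 𝓞 K := a - x with hc0
  have hc0' : c₀ = b + y := by rw [hc0]; linear_combination -hxy
  set e : Ideal (𝓞 K) := d₁ ⊓ d₂ with he
  set PP : Finset (Ideal (𝓞 K)) := (UniqueFactorizationMonoid.normalizedFactors m).toFinset.filter
    (fun P => ¬ e ≤ P) with hPP
  have hcop : IsCoprime e (∏ P ∈ PP, P) := by
    refine IsCoprime.prod_right fun P hP => ?_
    rw [hPP, Finset.mem_filter, Multiset.mem_toFinset, Ideal.mem_normalizedFactors_iff hm] at hP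
    obtain ⟨⟨hP1, hP2⟩, hP3⟩ := hP
    have hPbot : P ≠ ⊥ := by
      rintro rfl
      exact hm (le_bot_iff.1 hP2)
    have hPmax : P.IsMaximal := hP1.isMaximal hPbot
    rw [Ideal.isCoprime_iff_sup_eq, sup_comm]
    exact hPmax.out.2 _ (left_lt_sup.2 hP3)
  obtain ⟨u, hu, v, hv, huv⟩ := Ideal.isCoprime_iff_exists.1 hcop
  have hu1 : u ∈ d₁ := (Submodule.mem_inf.1 hu).1
  have hu2 : u ∈ d₂ := (Submodule.mem_inf.1 hu).2
  have hac : a - (c₀ * v + u) ∈ d₁ := by
    have : a - (c₀ * v + u) = x + (c₀ - 1) * u := by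
      rw [hc0]; linear_combination (x - a) * huv
    rw [this]
    exact d₁.add_mem hx (d₁.mul_mem_left _ hu1)
  have hbc : b - (c₀ * v + u) ∈ d₂ := by
    have : b - (c₀ * v + u) = -y + (c₀ - 1) * u := by
      rw [hc0']; linear_combination (-(b + y)) * huv
    rw [this]
    exact d₂.add_mem (d₂.neg_mem hy) (d₂.mul_mem_left _ hu2)
  refine ⟨c₀ * v + u, ?_, hac, hbc⟩
  by_contra hne
  obtain ⟨P, hPmax, hP⟩ := Ideal.exists_le_maximal _ hne
  have hPc : c₀ * v + u ∈ P := hP (Ideal.mem_sup_left (Ideal.mem_span_singleton_self _))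
  have hPm : m ≤ P := le_trans le_sup_right hP
  have key : ∀ z : 𝓞 K, Ideal.span {z} ⊔ m = ⊤ → z ∉ P := by
    intro z hz hzP
    refine hPmax.ne_top ?_
    rw [eq_top_iff, ← hz]
    exact sup_le ((Ideal.span_singleton_le_iff_mem _).2 hzP) hPm
  by_cases heP : e ≤ P
  · rcases hPmax.isPrime.inf_le.1 heP with h | h
    · refine key a ha ?_
      have : a = (a - (c₀ * v + u)) + (c₀ * v + u) := by ring
      rw [this]
      exact P.add_mem (h hac) hPc
    · refine key b hb ?_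
      have : b = (b - (c₀ * v + u)) + (c₀ * v + u) := by ring
      rw [this]
      exact P.add_mem (h hbc) hPc
  · have hPP' : P ∈ PP := by
      rw [hPP, Finset.mem_filter, Multiset.mem_toFinset, Ideal.mem_normalizedFactors_iff hm]
      exact ⟨⟨hPmax.isPrime, hPm⟩, heP⟩
    have hvP : v ∈ P := Ideal.le_of_dvd (Finset.dvd_prod_of_mem (fun P => P) hPP') hv
    have huP : u ∈ P := by
      have : u = (c₀ * v + u) - c₀ * v := by ring
      rw [this]
      exact P.sub_mem hPc (P.mul_mem_left _ hvP)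
    exact hPmax.ne_top ((Ideal.eq_top_iff_one P).2 (by rw [← huv]; exact P.add_mem huP hvP))

theorem cop_ne_zero {m : Ideal (𝓞 K)} (hm : m ≠ ⊤) {c : 𝓞 K} (h : Ideal.span {c} ⊔ m = ⊤) :
    c ≠ 0 := by
  rintro rfl
  rw [Ideal.span_singleton_eq_bot.2 rfl, bot_sup_eq] at h
  exact hm h

theorem Ch_mono {m d d' : Ideal (𝓞 K)} (h : d ≤ d') : Ch m d' ⊆ Ch m d :=
  fun _ hψ => ⟨hψ.1, fun a b ha hb ham hbm hab => hψ.2 a b ha hb ham hbm (h hab)⟩

theorem Ch_inf {m d₁ d₂ : Ideal (𝓞 K)} (hm : m ≠ ⊥) (hmt : m ≠ ⊤) (hm1 : m ≤ d₁) (hm2 : m ≤ d₂)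
    {ψ : Ideal (𝓞 K) → ℂ} (h1 : ψ ∈ Ch m d₁) (h2 : ψ ∈ Ch m d₂) : ψ ∈ Ch m (d₁ ⊔ d₂) := by
  refine ⟨h1.1, fun a b ha hb ham hbm hab => ?_⟩
  obtain ⟨c, hcm, hac, hbc⟩ := exists_cong m d₁ d₂ hm hm1 hm2 a b ham hbm hab
  have hc := cop_ne_zero hmt hcm
  rw [h1.2 a c ha hc ham hcm hac, h2.2 b c hb hc hbm hcm hbc]

open scoped Classical in
theorem Ch_sup {m : Ideal (𝓞 K)} (hm : m ≠ ⊥) (hmt : m ≠ ⊤) (D : Ideal (𝓞 K) → Ideal (𝓞 K))
    (s : Finset (Ideal (𝓞 K))) (hD : ∀ P ∈ s, m ≤ D P) (ψ : Ideal (𝓞 K) → ℂ) (hψ : ψ ∈ Ch m m) :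
    (∀ P ∈ s, ψ ∈ Ch m (D P)) ↔ ψ ∈ Ch m (m ⊔ s.sup D) := by
  constructor
  · intro h
    induction s using Finset.induction_on with
    | empty => rw [Finset.sup_empty, sup_bot_eq]; exact hψ
    | insert P s hP ih =>
      rw [Finset.sup_insert, sup_left_comm]
      refine Ch_inf hm hmt (hD P (Finset.mem_insert_self P s)) le_sup_left
        (h P (Finset.mem_insert_self P s)) ?_
      exact ih (fun Q hQ => hD Q (Finset.mem_insert_of_mem hQ))
        fun Q hQ => h Q (Finset.mem_insert_of_mem hQ)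
  · intro h P hP
    exact Ch_mono (le_trans (Finset.le_sup hP) le_sup_right) h

theorem inv_mod {m : Ideal (𝓞 K)} {b : 𝓞 K} (hb : Ideal.span {b} ⊔ m = ⊤) :
    ∃ z : 𝓞 K, b * z - 1 ∈ m ∧ Ideal.span {z} ⊔ m = ⊤ := by
  have h4 : (1 : 𝓞 K) ∈ Ideal.span {b} ⊔ m := by rw [hb]; trivial
  obtain ⟨x, hx, y, hy, hxy⟩ := Submodule.mem_sup.1 h4
  obtain ⟨z, rfl⟩ := Ideal.mem_span_singleton'.1 hx
  have h5 : b * z - 1 ∈ m := by
    have : b * z - 1 = -y := by linear_combination hxy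
    rw [this]
    exact m.neg_mem hy
  refine ⟨z, h5, ?_⟩
  have h6 : Ideal.span {b * z} ⊔ m = ⊤ :=
    cop_of_sub_mem (cop_one m) (by rw [← neg_sub]; exact m.neg_mem h5)
  rw [← Ideal.span_singleton_mul_span_singleton] at h6
  exact cop_right h6

theorem RP_empty [IsTotallyComplex K] : IsEmpty (RP K) :=
  ⟨fun v => (not_isReal_iff_isComplex.2 (IsTotallyComplex.isComplex v.1)) v.2⟩

theorem PC_span_ne {m : Ideal (𝓞 K)} {ψ : Ideal (𝓞 K) → ℂ} (h : PC m ψ) {z : 𝓞 K} (hz : z ≠ 0)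
    (hzm : Ideal.span {z} ⊔ m = ⊤) : ψ (Ideal.span {z}) ≠ 0 := by
  intro h0
  have := h.norm _ (by rwa [Ne, Ideal.span_singleton_eq_bot]) hzm
  rw [h0, norm_zero] at this
  exact zero_ne_one this

/-- the condition modulo a divisor -/
theorem mem_Ch_iff {m D : Ideal (𝓞 K)} (hmt : m ≠ ⊤) (hmD : m ≤ D) {ψ : Ideal (𝓞 K) → ℂ}
    (h : PC m ψ) : ψ ∈ Ch m D ↔ ∀ a : 𝓞 K, a ≠ 0 → Ideal.span {a} ⊔ m = ⊤ → a - 1 ∈ D →
      ψ (Ideal.span {a}) = 1 := by
  constructor
  · intro h1 a ha ham haD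
    rw [h1.2 a 1 ha one_ne_zero ham (cop_one m) haD, Ideal.span_singleton_one, h.one]
  · intro h1
    refine ⟨h, fun a b ha hb ham hbm hab => ?_⟩
    obtain ⟨z, hbz, hzm⟩ := inv_mod hbm
    have hz := cop_ne_zero hmt hzm
    have h2 : a * z - 1 ∈ D := by
      have : a * z - 1 = (a - b) * z + (b * z - 1) := by ring
      rw [this]
      exact D.add_mem (D.mul_mem_right _ hab) (hmD hbz)
    have h3 := h1 (a * z) (mul_ne_zero ha hz) (cop_span_mul ham hzm) h2
    have h4 := h1 (b * z) (mul_ne_zero hb hz) (cop_span_mul hbm hzm) (hmD hbz)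
    rw [← Ideal.span_singleton_mul_span_singleton, h.mul] at h3 h4
    exact mul_right_cancel₀ (PC_span_ne h hz hzm) (h3.trans h4.symm)

theorem mem_Ch_self [IsTotallyComplex K] {m : Ideal (𝓞 K)} (hmt : m ≠ ⊤)
    {ψ : Ideal (𝓞 K) → ℂ} (h : PC m ψ) : ψ ∈ Ch m m := by
  rw [mem_Ch_iff hmt le_rfl h]
  intro a ha _ haD
  exact h.ray a ha haD fun v => (RP_empty.false v).elim

theorem colon_iff {m P D : Ideal (𝓞 K)} (hP : P ≠ ⊥) (h : m = P * D) (y : 𝓞 K) :
    (∀ x ∈ P, y * x ∈ m) ↔ y ∈ D := by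
  constructor
  · intro h1
    have h2 : P * Ideal.span {y} ≤ P * D := by
      rw [← h, Ideal.mul_le]
      intro r hr s hs
      obtain ⟨t, rfl⟩ := Ideal.mem_span_singleton'.1 hs
      have h3 := m.mul_mem_left t (h1 r hr)
      have h4 : r * (t * y) = t * (y * r) := by ring
      rw [h4]
      exact h3
    rw [← Ideal.dvd_iff_le, mul_dvd_mul_iff_left hP, Ideal.dvd_iff_le,
      Ideal.span_singleton_le_iff_mem] at h2
    exact h2
  · intro h1 x hx
    rw [h, mul_comm y x]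
    exact Ideal.mul_mem_mul hx h1

open scoped Classical in
/-- the cofactor of a prime -/
noncomputable def cof (m P : Ideal (𝓞 K)) : Ideal (𝓞 K) :=
  if h : ∃ D, m = P * D then h.choose else ⊤

theorem cof_spec {m P : Ideal (𝓞 K)} (h : m ≤ P) : m = P * cof m P := by
  have h1 : ∃ D, m = P * D := Ideal.dvd_iff_le.2 h
  rw [cof, dif_pos h1]
  exact h1.choose_spec

theorem le_cof (m P : Ideal (𝓞 K)) : m ≤ cof m P := by
  by_cases h1 : ∃ D, m = P * D
  · rw [cof, dif_pos h1]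
    calc m = P * h1.choose := h1.choose_spec
      _ ≤ h1.choose := Ideal.mul_le_right
  · rw [cof, dif_neg h1]
    exact le_top

theorem cof_ne {m P : Ideal (𝓞 K)} (hm : m ≠ ⊥) (hP : P ≠ ⊤) (h : m ≤ P) : cof m P ≠ m := by
  intro h1
  have h2 := cof_spec h
  rw [h1] at h2
  have h3 : (1 : Ideal (𝓞 K)) * m = P * m := by rw [one_mul]; exact h2
  have h4 := mul_right_cancel₀ hm h3
  rw [Ideal.one_eq_top] at h4
  exact hP h4.symm

theorem RCC_PC [IsTotallyComplex K] (χ : RCC K) : PC χ.f χ.ψ := by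
  refine ⟨χ.f_ne, χ.map_one, χ.map_mul, χ.map_bot, χ.norm_one, χ.eq_zero, fun a ha ham _ => ?_⟩
  rw [χ.princ a ha ham, sg]
  have : χ.S = ∅ := by
    haveI : IsEmpty (RP K) := RP_empty
    exact Finset.eq_empty_of_isEmpty χ.S
  rw [this, Finset.prod_empty]

theorem sg_one [IsTotallyComplex K] (S : Finset (RP K)) (a : K) : sg K S a = 1 := by
  have : S = ∅ := by
    haveI : IsEmpty (RP K) := RP_empty
    exact Finset.eq_empty_of_isEmpty S
  rw [sg, this, Finset.prod_empty]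

theorem bij_Pr [IsTotallyComplex K] {m : Ideal (𝓞 K)} (hm : m ≠ ⊥) (hmt : m ≠ ⊤) :
    Set.BijOn (fun χ : RCC K => χ.ψ) (Pr K m)
      {ψ | ψ ∈ Ch m m ∧ ∀ P : Ideal (𝓞 K), P.IsPrime → m ≤ P → ψ ∉ Ch m (cof m P)} := by
  have hPb : ∀ P : Ideal (𝓞 K), m ≤ P → P ≠ ⊥ := by
    rintro P hP rfl
    exact hm (le_bot_iff.1 hP)
  refine ⟨?_, ?_, ?_⟩
  · intro χ hχ
    have hf : χ.f = m := hχ
    have h1 : PC m χ.ψ := by rw [← hf]; exact RCC_PC χ
    refine ⟨mem_Ch_self hmt h1, fun P hP hmP h2 => ?_⟩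
    obtain ⟨a, ha, ham, haP, hne⟩ := χ.prim P hP (by rw [hf]; exact hmP)
    rw [hf] at ham haP
    rw [sg_one] at hne
    refine hne ((mem_Ch_iff hmt (le_cof m P) h1).1 h2 a ha ham ?_)
    exact (colon_iff (hPb P hmP) (cof_spec hmP) _).1 haP
  · intro χ hχ χ' hχ' h
    have hf : χ.f = m := hχ
    have hf' : χ'.f = m := hχ'
    haveI : IsEmpty (RP K) := RP_empty
    obtain ⟨f, S, ψ, _, _, _, _, _, _, _, _⟩ := χ
    obtain ⟨f', S', ψ', _, _, _, _, _, _, _, _⟩ := χ'
    simp only at h hf hf'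
    subst h hf hf'
    have : S = S' := Subsingleton.elim _ _
    subst this
    rfl
  · rintro ψ ⟨hψ, h⟩
    have h1 := hψ.1
    refine ⟨⟨m, ∅, ψ, hm, h1.one, h1.mul, h1.bot, h1.norm, h1.zero, ?_, ?_⟩, rfl, rfl⟩
    · intro a ha ham
      rw [sg_one]
      exact h1.ray a ha ham fun v => (RP_empty.false v).elim
    · intro P hP hmP
      have h2 := h P hP hmP
      rw [mem_Ch_iff hmt (le_cof m P) h1] at h2
      push Not at h2
      obtain ⟨a, ha, ham, haD, hne⟩ := h2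
      refine ⟨a, ha, ham, (colon_iff (hPb P hmP) (cof_spec hmP) _).2 haD, ?_⟩
      rw [sg_one]
      exact hne

theorem pow_card_le {α : Type} (s : Multiset α) (g : α → ℕ) (q : ℕ) (h : ∀ x ∈ s, q ≤ g x) :
    q ^ Multiset.card s ≤ (s.map g).prod := by
  induction s using Multiset.induction_on with
  | empty => simp
  | cons a s ih =>
    rw [Multiset.card_cons, Multiset.map_cons, Multiset.prod_cons, pow_succ, mul_comm]
    exact Nat.mul_le_mul (h a (Multiset.mem_cons_self a s))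
      (ih fun x hx => h x (Multiset.mem_cons_of_mem hx))

open scoped Classical in
theorem card_primes (q : ℕ) (hq : q.Prime) :
    (UniqueFactorizationMonoid.normalizedFactors (qi K q)).toFinset.card ≤
      Module.finrank ℚ K := by
  refine (Multiset.toFinset_card_le _).trans ?_
  set s := UniqueFactorizationMonoid.normalizedFactors (qi K q) with hs
  have hm := qi_ne_bot K q hq
  have h1 := pow_card_le s (fun P => Ideal.absNorm P) q (by
    intro P hP
    rw [hs, Ideal.mem_normalizedFactors_iff hm] at hP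
    have hPb : P ≠ ⊥ := by
      rintro rfl
      exact hm (le_bot_iff.1 hP.2)
    have := le_np K q hq ⟨P, hP.1, hPb⟩ hP.2
    rw [np, nm] at this
    exact_mod_cast this)
  have h2 : (s.map fun P => Ideal.absNorm P).prod = Ideal.absNorm s.prod :=
    (map_multiset_prod Ideal.absNorm s).symm
  have h3 : s.prod = qi K q := Ideal.prod_normalizedFactors_eq_self hm
  rw [h2, h3, qi, Ideal.absNorm_span_natCast, RingOfIntegers.rank] at h1
  exact (Nat.pow_le_pow_iff_right hq.one_lt).1 h1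

open scoped Classical in
theorem pf_IE (hOR : T_OR) : T_IE := by
  intro K _ _ _ q hq
  set m := qi K q with hmdef
  have hm : m ≠ ⊥ := qi_ne_bot K q hq
  have hmt : m ≠ ⊤ := qi_ne_top K q hq
  have hbij := bij_Pr hm hmt
  have hUf := (hOR K m m hm le_rfl).1
  have hTf : {ψ | ψ ∈ Ch m m ∧ ∀ P : Ideal (𝓞 K), P.IsPrime → m ≤ P →
      ψ ∉ Ch m (cof m P)}.Finite := hUf.subset fun ψ h => h.1
  have hPf : (Pr K m).Finite := by
    refine Set.Finite.of_finite_image ?_ hbij.injOn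
    rw [hbij.image_eq]
    exact hTf
  set PP : Finset (Ideal (𝓞 K)) :=
    (UniqueFactorizationMonoid.normalizedFactors m).toFinset with hPP
  have hPPm : ∀ P, P ∈ PP ↔ P.IsPrime ∧ m ≤ P := by
    intro P
    rw [hPP, Multiset.mem_toFinset, Ideal.mem_normalizedFactors_iff hm]
  have hPPc : PP.card ≤ Module.finrank ℚ K := card_primes q hq
  set E : Finset (Ideal (𝓞 K)) → Ideal (𝓞 K) := fun s => m ⊔ s.sup (cof m) with hE
  set NE : Finset (Finset (Ideal (𝓞 K))) := PP.powerset.filter fun s => s.Nonempty with hNE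
  have hNEc : NE.card ≤ 2 ^ Module.finrank ℚ K := by
    refine (Finset.card_filter_le _ _).trans ?_
    rw [Finset.card_powerset]
    exact Nat.pow_le_pow_right (by norm_num) hPPc
  refine ⟨hPf, NE.image E, fun d => ∑ s ∈ NE.filter (fun s => E s = d), (-1) ^ s.card,
    Finset.card_image_le.trans hNEc, ?_, ?_⟩
  · intro d hd
    rw [Finset.mem_image] at hd
    obtain ⟨s, hs, rfl⟩ := hd
    rw [hNE, Finset.mem_filter, Finset.mem_powerset] at hs
    refine ⟨le_sup_left, ?_, ?_⟩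
    · obtain ⟨P, hP⟩ := hs.2
      have hP1 := (hPPm P).1 (hs.1 hP)
      intro h
      have h1 : cof m P ≤ m := by
        calc cof m P ≤ s.sup (cof m) := Finset.le_sup hP
          _ ≤ E s := le_sup_right
          _ = m := h
      exact cof_ne hm hP1.1.ne_top hP1.2 (le_antisymm h1 (le_cof m P))
    · refine (Finset.abs_sum_le_sum_abs _ _).trans ?_
      simp only [abs_pow, abs_neg, abs_one, one_pow, Finset.sum_const, nsmul_eq_mul, mul_one]
      have h1 : (NE.filter (fun t => E t = E s)).card ≤ 2 ^ Module.finrank ℚ K :=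
        (Finset.card_filter_le _ _).trans hNEc
      exact_mod_cast h1
  · intro f
    have hsumf : ∀ s ∈ PP.powerset, (∑ᶠ ψ ∈ Ch m (E s), f ψ) =
        ∑ ψ ∈ hUf.toFinset.filter (fun ψ => ∀ P ∈ s, ψ ∈ Ch m (cof m P)), f ψ := by
      intro s hs
      have h1 : (hUf.subset (Ch_mono (le_sup_left : m ≤ E s))).toFinset =
          hUf.toFinset.filter (fun ψ => ∀ P ∈ s, ψ ∈ Ch m (cof m P)) := by
        ext ψ
        rw [Set.Finite.mem_toFinset, Finset.mem_filter, Set.Finite.mem_toFinset]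
        constructor
        · intro h
          have h2 : ψ ∈ Ch m m := Ch_mono (le_sup_left : m ≤ E s) h
          exact ⟨h2, (Ch_sup hm hmt (cof m) s (fun P _ => le_cof m P) ψ h2).2 h⟩
        · rintro ⟨h, h2⟩
          exact (Ch_sup hm hmt (cof m) s (fun P _ => le_cof m P) ψ h).1 h2
      rw [finsum_mem_eq_finite_toFinset_sum _ (hUf.subset (Ch_mono (le_sup_left : m ≤ E s))), h1]
    have h0 : (∑ᶠ χ ∈ Pr K m, f χ.ψ) =
        ∑ ψ ∈ hUf.toFinset.filter (fun ψ => ∀ P ∈ PP, ¬ ψ ∈ Ch m (cof m P)), f ψ := by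
      rw [finsum_mem_eq_of_bijOn (fun χ : RCC K => χ.ψ) hbij (g := f) (fun χ _ => rfl),
        finsum_mem_eq_finite_toFinset_sum _ hTf]
      refine Finset.sum_congr ?_ fun _ _ => rfl
      ext ψ
      rw [Set.Finite.mem_toFinset, Finset.mem_filter, Set.Finite.mem_toFinset]
      constructor
      · rintro ⟨h1, h2⟩
        exact ⟨h1, fun P hP => h2 P ((hPPm P).1 hP).1 ((hPPm P).1 hP).2⟩
      · rintro ⟨h1, h2⟩
        exact ⟨h1, fun P hP hmP => h2 P ((hPPm P).2 ⟨hP, hmP⟩)⟩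
    rw [h0, incl_excl hUf.toFinset PP (fun P ψ => ψ ∈ Ch m (cof m P)) f]
    have h1 : ∑ s ∈ PP.powerset, (-1 : ℂ) ^ s.card *
        ∑ ψ ∈ hUf.toFinset.filter (fun ψ => ∀ P ∈ s, ψ ∈ Ch m (cof m P)), f ψ =
        ∑ s ∈ PP.powerset, (-1 : ℂ) ^ s.card * ∑ᶠ ψ ∈ Ch m (E s), f ψ :=
      Finset.sum_congr rfl fun s hs => by rw [hsumf s hs]
    rw [h1, ← Finset.sum_filter_add_sum_filter_not PP.powerset (fun s => s.Nonempty), ← hNE,
      add_comm]
    congr 1
    · have h2 : PP.powerset.filter (fun s => ¬ s.Nonempty) = {∅} := by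
        ext s
        rw [Finset.mem_filter, Finset.mem_powerset, Finset.mem_singleton,
          Finset.not_nonempty_iff_eq_empty]
        constructor
        · exact fun h => h.2
        · rintro rfl
          exact ⟨Finset.empty_subset _, rfl⟩
      rw [h2, Finset.sum_singleton, Finset.card_empty, pow_zero, one_mul, hE]
      simp only [Finset.sup_empty, sup_bot_eq]
    · rw [← Finset.sum_fiberwise_of_maps_to (g := E) (t := NE.image E)
        (fun s hs => Finset.mem_image_of_mem E hs)]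
      refine Finset.sum_congr rfl fun d _ => ?_
      push_cast
      rw [Finset.sum_mul]
      refine Finset.sum_congr rfl fun s hs => ?_
      rw [(Finset.mem_filter.1 hs).2]

end Pool.Agent.H37.CV
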