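import Pool.Agent.H37.CV.Targets

/-!
# The orthogonality of the ray class characters
-/

set_option autoImplicit false

open NumberField NumberField.InfinitePlace Complex Filter Topology MeasureTheory

namespace Pool.Agent.H37.CV

open Pool.Agent.H28.RC Pool.Agent.H25.HK

variable {K : Type} [Field K] [NumberField K]

theorem cop_mul {I J m : Ideal (𝓞 K)} (hI : I ⊔ m = ⊤) (hJ : J ⊔ m = ⊤) : (I * J) ⊔ m = ⊤ := by
  rw [← Ideal.isCoprime_iff_sup_eq] at *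
  exact IsCoprime.mul_left hI hJ

theorem cop_left {I J m : Ideal (𝓞 K)} (h : (I * J) ⊔ m = ⊤) : I ⊔ m = ⊤ := by
  rw [eq_top_iff, ← h]
  exact sup_le_sup_right Ideal.mul_le_left m

theorem cop_right {I J m : Ideal (𝓞 K)} (h : (I * J) ⊔ m = ⊤) : J ⊔ m = ⊤ := by
  rw [mul_comm] at h
  exact cop_left h

theorem cop_span_mul {a b : 𝓞 K} {m : Ideal (𝓞 K)} (ha : Ideal.span {a} ⊔ m = ⊤)
    (hb : Ideal.span {b} ⊔ m = ⊤) : Ideal.span {a * b} ⊔ m = ⊤ := by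
  rw [← Ideal.span_singleton_mul_span_singleton]
  exact cop_mul ha hb

theorem cop_of_sub_mem {a b : 𝓞 K} {m : Ideal (𝓞 K)} (ha : Ideal.span {a} ⊔ m = ⊤)
    (h : a - b ∈ m) : Ideal.span {b} ⊔ m = ⊤ := by
  rw [eq_top_iff, ← ha]
  refine sup_le ?_ le_sup_right
  rw [Ideal.span_singleton_le_iff_mem]
  have : a = b + (a - b) := by ring
  rw [this]
  exact Ideal.add_mem _ (Ideal.mem_sup_left (Ideal.mem_span_singleton_self b))
    (Ideal.mem_sup_right h)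

theorem cop_one (m : Ideal (𝓞 K)) : Ideal.span {(1 : 𝓞 K)} ⊔ m = ⊤ := by
  rw [Ideal.span_singleton_one, top_sup_eq]

theorem Rl_refl (m d I : Ideal (𝓞 K)) : Rl m d I I :=
  ⟨1, 1, one_ne_zero, one_ne_zero, cop_one m, cop_one m, by rw [sub_self]; exact Ideal.zero_mem _,
    rfl⟩

theorem Rl_symm {m d I J : Ideal (𝓞 K)} (h : Rl m d I J) : Rl m d J I := by
  obtain ⟨a, b, ha, hb, ham, hbm, hab, h⟩ := h
  exact ⟨b, a, hb, ha, hbm, ham, by rw [← neg_sub]; exact d.neg_mem hab, h.symm⟩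

theorem Rl_trans {m d I J L : Ideal (𝓞 K)} (h : Rl m d I J) (h' : Rl m d J L) :
    Rl m d I L := by
  obtain ⟨a, b, ha, hb, ham, hbm, hab, h⟩ := h
  obtain ⟨c, e, hc, he, hcm, hem, hce, h'⟩ := h'
  refine ⟨a * c, b * e, mul_ne_zero ha hc, mul_ne_zero hb he, cop_span_mul ham hcm,
    cop_span_mul hbm hem, ?_, ?_⟩
  · have : a * c - b * e = a * (c - e) + (a - b) * e := by ring
    rw [this]
    exact d.add_mem (d.mul_mem_left _ hce) (d.mul_mem_right _ hab)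
  · rw [← Ideal.span_singleton_mul_span_singleton, ← Ideal.span_singleton_mul_span_singleton]
    calc Ideal.span {a} * Ideal.span {c} * I = Ideal.span {c} * (Ideal.span {a} * I) := by ring
      _ = Ideal.span {b} * (Ideal.span {c} * J) := by rw [h]; ring
      _ = _ := by rw [h']; ring

theorem Rl_mul {m d I J I' J' : Ideal (𝓞 K)} (h : Rl m d I J) (h' : Rl m d I' J') :
    Rl m d (I * I') (J * J') := by
  obtain ⟨a, b, ha, hb, ham, hbm, hab, h⟩ := h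
  obtain ⟨c, e, hc, he, hcm, hem, hce, h'⟩ := h'
  refine ⟨a * c, b * e, mul_ne_zero ha hc, mul_ne_zero hb he, cop_span_mul ham hcm,
    cop_span_mul hbm hem, ?_, ?_⟩
  · have : a * c - b * e = a * (c - e) + (a - b) * e := by ring
    rw [this]
    exact d.add_mem (d.mul_mem_left _ hce) (d.mul_mem_right _ hab)
  · rw [← Ideal.span_singleton_mul_span_singleton, ← Ideal.span_singleton_mul_span_singleton]
    calc Ideal.span {a} * Ideal.span {c} * (I * I') =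
        (Ideal.span {a} * I) * (Ideal.span {c} * I') := by ring
      _ = (Ideal.span {b} * J) * (Ideal.span {e} * J') := by rw [h, h']
      _ = _ := by ring

/-- the ideals prime to `m` -/
def SMm (m : Ideal (𝓞 K)) : Submonoid (Ideal (𝓞 K)) where
  carrier := {I | I ≠ ⊥ ∧ I ⊔ m = ⊤}
  mul_mem' := by
    rintro I J ⟨h1, h2⟩ ⟨h3, h4⟩
    exact ⟨mul_ne_zero h1 h3, cop_mul h2 h4⟩
  one_mem' := ⟨by rw [Ideal.one_eq_top]; exact top_ne_bot, by rw [Ideal.one_eq_top, top_sup_eq]⟩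

/-- the congruence -/
def rcn (m d : Ideal (𝓞 K)) : Con (SMm m) where
  r I J := Rl m d I.1 J.1
  iseqv := ⟨fun I => Rl_refl m d I.1, fun h => Rl_symm h, fun h h' => Rl_trans h h'⟩
  mul' := fun h h' => Rl_mul h h'

/-- every element of the quotient has finite order -/
theorem exists_pow (m d : Ideal (𝓞 K)) (hm : m ≠ ⊥) (hmd : m ≤ d) : ∃ e : ℕ, 0 < e ∧
    ∀ I : Ideal (𝓞 K), I ≠ ⊥ → I ⊔ m = ⊤ → Rl m d (I ^ e) ⊤ := by
  haveI : Finite (𝓞 K ⧸ m) := Ideal.finiteQuotientOfFreeOfNeBot m hm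
  haveI : Finite (𝓞 K ⧸ m)ˣ := inferInstance
  have hcop : ∀ (I : Ideal (𝓞 K)) (n : ℕ), I ⊔ m = ⊤ → I ^ n ⊔ m = ⊤ := by
    intro I n hI
    induction n with
    | zero => rw [pow_zero, Ideal.one_eq_top, top_sup_eq]
    | succ n ih => rw [pow_succ]; exact cop_mul ih hI
  refine ⟨Fintype.card (ClassGroup (𝓞 K)) * Nat.card (𝓞 K ⧸ m)ˣ,
    Nat.mul_pos Fintype.card_pos Nat.card_pos, fun I hI hIm => ?_⟩
  set h := Fintype.card (ClassGroup (𝓞 K)) with hh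
  set k := Nat.card (𝓞 K ⧸ m)ˣ with hk
  have h1 : (ClassGroup.mk0 ⟨I, mem_nonZeroDivisors_of_ne_zero hI⟩ : ClassGroup (𝓞 K)) ^ h = 1 :=
    pow_card_eq_one
  rw [← map_pow] at h1
  have h2 : (I ^ h).IsPrincipal := by
    have := (ClassGroup.mk0_eq_one_iff (I := I ^ h)
      (mem_nonZeroDivisors_of_ne_zero (pow_ne_zero h hI))).1 (by
        rw [← h1]; rfl)
    exact this
  obtain ⟨a, ha⟩ := h2.principal
  rw [Ideal.submodule_span_eq] at ha
  have ha0 : a ≠ 0 := by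
    rintro rfl
    rw [Ideal.span_singleton_eq_bot.2 rfl] at ha
    exact pow_ne_zero h hI ha
  have ham : Ideal.span {a} ⊔ m = ⊤ := by rw [← ha]; exact hcop I h hIm
  have h3 : IsUnit (Ideal.Quotient.mk m a) := by
    have h4 : (1 : 𝓞 K) ∈ Ideal.span {a} ⊔ m := by rw [ham]; trivial
    obtain ⟨x, hx, y, hy, hxy⟩ := Submodule.mem_sup.1 h4
    obtain ⟨z, rfl⟩ := Ideal.mem_span_singleton'.1 hx
    refine IsUnit.of_mul_eq_one (Ideal.Quotient.mk m z) ?_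
    rw [← map_mul, ← map_one (Ideal.Quotient.mk m), Ideal.Quotient.eq, ← hxy]
    have : a * z - (z * a + y) = -y := by ring
    rw [this]
    exact m.neg_mem hy
  obtain ⟨u, hu⟩ := h3
  have h4 : a ^ k - 1 ∈ m := by
    rw [← Ideal.Quotient.eq, map_pow, ← hu, map_one, ← Units.val_pow_eq_pow_val, hk,
      pow_card_eq_one', Units.val_one]
  refine ⟨1, a ^ k, one_ne_zero, pow_ne_zero k ha0, cop_one m, ?_, ?_, ?_⟩
  · rw [← Ideal.span_singleton_pow]; exact hcop _ k ham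
  · rw [← neg_sub]; exact d.neg_mem (hmd h4)
  · rw [Ideal.span_singleton_one, Ideal.top_mul, pow_mul, ha, Ideal.span_singleton_pow,
      Ideal.mul_top]

/-- the group of classes -/
abbrev RG (m d : Ideal (𝓞 K)) : Type := (rcn m d).Quotient

theorem mk0_pow_principal (I J : Ideal (𝓞 K)) (hI : I ≠ ⊥) (hJ : J ≠ ⊥)
    (h : ClassGroup.mk0 ⟨I, mem_nonZeroDivisors_of_ne_zero hI⟩ =
      ClassGroup.mk0 ⟨J, mem_nonZeroDivisors_of_ne_zero hJ⟩) :
    ∃ a : 𝓞 K, Ideal.span {a} = I * J ^ (Fintype.card (ClassGroup (𝓞 K)) - 1) := by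
  have hpos : 0 < Fintype.card (ClassGroup (𝓞 K)) := Fintype.card_pos
  set n := Fintype.card (ClassGroup (𝓞 K)) with hn
  have h1 : (ClassGroup.mk0 ⟨I, mem_nonZeroDivisors_of_ne_zero hI⟩ : ClassGroup (𝓞 K)) ^ n = 1 :=
    pow_card_eq_one
  have h2 : ClassGroup.mk0 ⟨I * J ^ (n - 1), mem_nonZeroDivisors_of_ne_zero
      (mul_ne_zero hI (pow_ne_zero _ hJ))⟩ = 1 := by
    have h3 : (⟨I * J ^ (n - 1), mem_nonZeroDivisors_of_ne_zero
        (mul_ne_zero hI (pow_ne_zero _ hJ))⟩ : nonZeroDivisors (Ideal (𝓞 K))) =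
        ⟨I, mem_nonZeroDivisors_of_ne_zero hI⟩ *
          ⟨J, mem_nonZeroDivisors_of_ne_zero hJ⟩ ^ (n - 1) := rfl
    rw [h3, map_mul, map_pow, ← h, ← pow_succ', Nat.sub_add_cancel hpos, h1]
  have h3 : (I * J ^ (n - 1)).IsPrincipal := (ClassGroup.mk0_eq_one_iff _).1 h2
  obtain ⟨a, ha⟩ := h3.principal
  rw [Ideal.submodule_span_eq] at ha
  exact ⟨a, ha.symm⟩

open scoped Classical in
theorem RG_finite (m d : Ideal (𝓞 K)) (hm : m ≠ ⊥) (hmd : m ≤ d) : Finite (RG m d) := by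
  have : Finite (𝓞 K ⧸ m) := Ideal.finiteQuotientOfFreeOfNeBot m hm
  have hcop : ∀ (I : Ideal (𝓞 K)) (n : ℕ), I ⊔ m = ⊤ → I ^ n ⊔ m = ⊤ := by
    intro I n hI
    induction n with
    | zero => rw [pow_zero, Ideal.one_eq_top, top_sup_eq]
    | succ n ih => rw [pow_succ]; exact cop_mul ih hI
  set n := Fintype.card (ClassGroup (𝓞 K)) with hn
  let cl : SMm m → ClassGroup (𝓞 K) := fun I =>
    ClassGroup.mk0 ⟨I.1, mem_nonZeroDivisors_of_ne_zero I.2.1⟩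
  let rep : ClassGroup (𝓞 K) → SMm m := fun c => if h : ∃ J, cl J = c then h.choose else 1
  have hrep : ∀ I : SMm m, cl (rep (cl I)) = cl I := by
    intro I
    have h : ∃ J, cl J = cl I := ⟨I, rfl⟩
    simp only [rep, dif_pos h]
    exact h.choose_spec
  have hex : ∀ I : SMm m, ∃ a : 𝓞 K, Ideal.span {a} = I.1 * (rep (cl I)).1 ^ (n - 1) := fun I =>
    mk0_pow_principal I.1 (rep (cl I)).1 I.2.1 (rep (cl I)).2.1 (hrep I).symm
  choose g hg using hex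
  have hg0 : ∀ I, g I ≠ 0 := by
    intro I h
    have h1 := hg I
    rw [h, Ideal.span_singleton_eq_bot.2 rfl] at h1
    exact mul_ne_zero I.2.1 (pow_ne_zero _ (rep (cl I)).2.1) h1.symm
  have hgm : ∀ I, Ideal.span {g I} ⊔ m = ⊤ := by
    intro I
    rw [hg I]
    exact cop_mul I.2.2 (hcop _ _ (rep (cl I)).2.2)
  let F : SMm m → ClassGroup (𝓞 K) × (𝓞 K ⧸ m) := fun I => (cl I, Ideal.Quotient.mk m (g I))
  have hF : ∀ I J, F I = F J → Rl m d I.1 J.1 := by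
    intro I J h
    have h1 : cl I = cl J := congrArg Prod.fst h
    have h2 : Ideal.Quotient.mk m (g I) = Ideal.Quotient.mk m (g J) := congrArg Prod.snd h
    have h3 : g J - g I ∈ m := Ideal.Quotient.eq.1 h2.symm
    refine ⟨g J, g I, hg0 J, hg0 I, hgm J, hgm I, hmd h3, ?_⟩
    have h5 := hg I
    rw [h1] at h5
    refine mul_right_cancel₀ (pow_ne_zero (n - 1) (rep (cl J)).2.1) ?_
    rw [mul_assoc, mul_assoc, ← h5, ← hg J]
    exact mul_comm _ _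
  refine Finite.of_injective (fun x : RG m d => F (Quotient.out x)) ?_
  intro x y hxy
  have h1 := hF _ _ hxy
  rw [← Quotient.out_eq x, ← Quotient.out_eq y]
  exact Quotient.sound h1

theorem RG_inv (m d : Ideal (𝓞 K)) (hm : m ≠ ⊥) (hmd : m ≤ d) (x : RG m d) :
    ∃ y : RG m d, y * x = 1 := by
  obtain ⟨e, h1, h2⟩ := exists_pow m d hm hmd
  refine ⟨x ^ (e - 1), ?_⟩
  rw [← pow_succ, Nat.sub_add_cancel h1]
  induction x using Con.induction_on with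
  | H I =>
    change ((I ^ e : SMm m) : RG m d) = ((1 : SMm m) : RG m d)
    rw [Con.eq]
    have h3 : ((1 : SMm m) : Ideal (𝓞 K)) = ⊤ := Ideal.one_eq_top
    have h4 := h2 I.1 I.2.1 I.2.2
    change Rl m d (I.1 ^ e) ((1 : SMm m) : Ideal (𝓞 K))
    rw [h3]
    exact h4

/-- characters of finite groups -/
theorem grp_char (G : Type) [CommGroup G] [Finite G] :
    Finite (G →* ℂ) ∧ Nat.card (G →* ℂ) = Nat.card G ∧ (∀ (χ : G →* ℂ) (x : G), ‖χ x‖ = 1) ∧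
      ∀ x y : G, x ≠ y → ∑ᶠ χ : G →* ℂ, χ x * (starRingEnd ℂ) (χ y) = 0 := by
  let e : (G →* ℂˣ) ≃ (G →* ℂ) :=
    { toFun := fun χ => (Units.coeHom ℂ).comp χ
      invFun := fun χ => χ.toHomUnits
      left_inv := fun χ => by ext x; rfl
      right_inv := fun χ => by ext x; rfl }
  have h1 := CommGroup.card_monoidHom_of_hasEnoughRootsOfUnity G ℂ
  have h2 : 0 < Nat.card G := Nat.card_pos
  have h3 : Finite (G →* ℂˣ) := by
    have h4 : 0 < Nat.card (G →* ℂˣ) := by rw [h1]; exact h2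
    exact (Nat.card_pos_iff.1 h4).2
  have hn : ∀ (χ : G →* ℂ) (x : G), ‖χ x‖ = 1 := by
    intro χ x
    refine Complex.norm_eq_one_of_pow_eq_one (n := Nat.card G) ?_ Nat.card_pos.ne'
    rw [← map_pow, pow_card_eq_one', map_one]
  refine ⟨Finite.of_equiv _ e, by rw [← Nat.card_congr e, h1], hn, fun x y hxy => ?_⟩
  have h4 : ∀ χ : G →* ℂ, χ x * (starRingEnd ℂ) (χ y) = χ (x * y⁻¹) := by
    intro χ
    rw [map_mul, ← Complex.inv_eq_conj (hn χ y)]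
    congr 1
    exact (eq_inv_of_mul_eq_one_left (by rw [← map_mul, inv_mul_cancel, map_one])).symm
  simp only [h4]
  have hxy' : x * y⁻¹ ≠ 1 := by
    intro h5
    rw [mul_inv_eq_one] at h5
    exact hxy h5
  obtain ⟨φ, hφ⟩ := CommGroup.exists_apply_ne_one_of_hasEnoughRootsOfUnity G ℂ hxy'
  have h5 : ∑ᶠ χ : G →* ℂ, χ (x * y⁻¹) = φ (x * y⁻¹) * ∑ᶠ χ : G →* ℂ, χ (x * y⁻¹) := by
    calc ∑ᶠ χ : G →* ℂ, χ (x * y⁻¹) = ∑ᶠ χ : G →* ℂˣ, (e χ) (x * y⁻¹) :=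
          (finsum_comp_equiv e (f := fun χ : G →* ℂ => χ (x * y⁻¹))).symm
      _ = ∑ᶠ χ : G →* ℂˣ, (e (Equiv.mulLeft φ χ)) (x * y⁻¹) :=
          (finsum_comp_equiv (Equiv.mulLeft φ)
            (f := fun χ : G →* ℂˣ => (e χ) (x * y⁻¹))).symm
      _ = ∑ᶠ χ : G →* ℂˣ, φ (x * y⁻¹) * (e χ) (x * y⁻¹) := rfl
      _ = φ (x * y⁻¹) * ∑ᶠ χ : G →* ℂˣ, (e χ) (x * y⁻¹) := (mul_finsum _ _).symm
      _ = _ := by rw [finsum_comp_equiv e (f := fun χ : G →* ℂ => χ (x * y⁻¹))]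
  have h6 : ((φ (x * y⁻¹) : ℂˣ) : ℂ) ≠ 1 := by
    intro h7
    exact hφ (Units.ext h7)
  have h7 : (1 - ((φ (x * y⁻¹) : ℂˣ) : ℂ)) * ∑ᶠ χ : G →* ℂ, χ (x * y⁻¹) = 0 := by
    rw [sub_mul, one_mul, ← h5, sub_self]
  exact (mul_eq_zero.1 h7).resolve_left (sub_ne_zero.2 h6.symm)

theorem mon_char (G : Type) [inst : CommMonoid G] [Finite G] (hG : ∀ x : G, ∃ y : G, y * x = 1) :
    Finite (G →* ℂ) ∧ Nat.card (G →* ℂ) = Nat.card G ∧ (∀ (χ : G →* ℂ) (x : G), ‖χ x‖ = 1) ∧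
      ∀ x y : G, x ≠ y → ∑ᶠ χ : G →* ℂ, χ x * (starRingEnd ℂ) (χ y) = 0 := by
  choose iv hiv using hG
  exact @grp_char G { inst with inv := iv, inv_mul_cancel := hiv } _

open scoped Classical in
/-- the character of the ideals -/
noncomputable def exC (m d : Ideal (𝓞 K)) (χ : RG m d →* ℂ) (I : Ideal (𝓞 K)) : ℂ :=
  if h : I ≠ ⊥ ∧ I ⊔ m = ⊤ then χ ((⟨I, h⟩ : SMm m) : RG m d) else 0

theorem exC_apply (m d : Ideal (𝓞 K)) (χ : RG m d →* ℂ) (I : SMm m) :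
    exC m d χ I.1 = χ (I : RG m d) := by
  have h : I.1 ≠ ⊥ ∧ I.1 ⊔ m = ⊤ := I.2
  rw [exC, dif_pos h]

theorem exC_inj (m d : Ideal (𝓞 K)) : Function.Injective (exC m d) := by
  intro χ χ' h
  refine MonoidHom.ext fun x => ?_
  induction x using Con.induction_on with
  | H I => rw [← exC_apply, h, exC_apply]

theorem exC_norm (m d : Ideal (𝓞 K)) (hm : m ≠ ⊥) (hmd : m ≤ d) (χ : RG m d →* ℂ)
    (x : RG m d) : ‖χ x‖ = 1 := by
  have := RG_finite m d hm hmd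
  exact (mon_char (RG m d) (RG_inv m d hm hmd)).2.2.1 χ x

theorem exC_mem (m d : Ideal (𝓞 K)) (hm : m ≠ ⊥) (hmd : m ≤ d) [IsTotallyComplex K]
    (χ : RG m d →* ℂ) : exC m d χ ∈ Ch m d := by
  have hprinc : ∀ a b : 𝓞 K, a ≠ 0 → b ≠ 0 → Ideal.span {a} ⊔ m = ⊤ →
      Ideal.span {b} ⊔ m = ⊤ → a - b ∈ d → exC m d χ (Ideal.span {a}) =
        exC m d χ (Ideal.span {b}) := by
    intro a b ha hb ham hbm hab
    have ha' : Ideal.span {a} ≠ ⊥ := by rwa [Ne, Ideal.span_singleton_eq_bot]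
    have hb' : Ideal.span {b} ≠ ⊥ := by rwa [Ne, Ideal.span_singleton_eq_bot]
    rw [exC, exC, dif_pos ⟨ha', ham⟩, dif_pos ⟨hb', hbm⟩]
    congr 1
    rw [Con.eq]
    refine ⟨b, a, hb, ha, hbm, ham, by rw [← neg_sub]; exact d.neg_mem hab, ?_⟩
    exact mul_comm _ _
  have hone : exC m d χ ⊤ = 1 := by
    have h := exC_apply m d χ 1
    have h1 : ((1 : SMm m) : Ideal (𝓞 K)) = ⊤ := Ideal.one_eq_top
    rw [h1] at h
    rw [h]
    exact map_one χ
  refine ⟨⟨hm, hone, ?_, ?_, ?_, ?_, ?_⟩, hprinc⟩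
  · intro I J
    by_cases hI : I ≠ ⊥ ∧ I ⊔ m = ⊤
    · by_cases hJ : J ≠ ⊥ ∧ J ⊔ m = ⊤
      · have h := exC_apply m d χ (⟨I, hI⟩ * ⟨J, hJ⟩)
        have h1 := exC_apply m d χ ⟨I, hI⟩
        have h2 := exC_apply m d χ ⟨J, hJ⟩
        change exC m d χ (I * J) = χ (((⟨I, hI⟩ : SMm m) : RG m d) *
          ((⟨J, hJ⟩ : SMm m) : RG m d)) at h
        rw [h, map_mul, ← h1, ← h2]
      · rw [exC, exC, exC, dif_pos hI, dif_neg hJ, dif_neg, mul_zero]
        rintro ⟨h1, h2⟩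
        exact hJ ⟨right_ne_zero_of_mul h1, cop_right h2⟩
    · rw [exC, exC, dif_neg, dif_neg hI, zero_mul]
      rintro ⟨h1, h2⟩
      exact hI ⟨left_ne_zero_of_mul h1, cop_left h2⟩
  · rw [exC, dif_neg]
    rintro ⟨h1, -⟩
    exact h1 rfl
  · intro I hI hIm
    rw [exC, dif_pos ⟨hI, hIm⟩]
    exact exC_norm m d hm hmd χ _
  · intro I hI
    rw [exC, dif_neg]
    rintro ⟨-, h1⟩
    exact hI h1
  · intro a ha ham _
    have ham' : Ideal.span {a} ⊔ m = ⊤ := by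
      refine cop_of_sub_mem (cop_one m) ?_
      rw [← neg_sub]
      exact m.neg_mem ham
    rw [hprinc a 1 ha one_ne_zero ham' (cop_one m) (hmd ham), Ideal.span_singleton_one, hone]

theorem Rl_eq {m d : Ideal (𝓞 K)} {ψ : Ideal (𝓞 K) → ℂ} (hψ : ψ ∈ Ch m d) {I J : Ideal (𝓞 K)}
    (h : Rl m d I J) : ψ I = ψ J := by
  obtain ⟨a, b, ha, hb, ham, hbm, hab, h⟩ := h
  have h1 := hψ.2 a b ha hb ham hbm hab
  have h2 : ψ (Ideal.span {a}) * ψ I = ψ (Ideal.span {b}) * ψ J := by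
    rw [← hψ.1.mul, ← hψ.1.mul, h]
  rw [← h1] at h2
  refine mul_left_cancel₀ ?_ h2
  have h3 := hψ.1.norm (Ideal.span {a}) (by rwa [Ne, Ideal.span_singleton_eq_bot]) ham
  intro h4
  rw [h4, norm_zero] at h3
  exact zero_ne_one h3

theorem exC_range (m d : Ideal (𝓞 K)) (hm : m ≠ ⊥) (hmd : m ≤ d) [IsTotallyComplex K] :
    Set.range (exC m d) = Ch m d := by
  ext ψ
  constructor
  · rintro ⟨χ, rfl⟩
    exact exC_mem m d hm hmd χ
  · intro hψ
    let f : SMm m →* ℂ :=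
      { toFun := fun I => ψ I.1
        map_one' := by
          change ψ ((1 : SMm m) : Ideal (𝓞 K)) = 1
          have h1 : ((1 : SMm m) : Ideal (𝓞 K)) = ⊤ := Ideal.one_eq_top
          rw [h1, hψ.1.one]
        map_mul' := fun I J => hψ.1.mul I.1 J.1 }
    refine ⟨(rcn m d).lift f (fun I J h => Rl_eq hψ h), ?_⟩
    funext I
    by_cases hI : I ≠ ⊥ ∧ I ⊔ m = ⊤
    · rw [exC, dif_pos hI]
      rfl
    · rw [exC, dif_neg hI]
      by_cases h1 : I = ⊥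
      · rw [h1, hψ.1.bot]
      · rw [hψ.1.zero I fun h2 => hI ⟨h1, h2⟩]

/-- the number of characters is the number of classes -/
theorem nc_eq (m d : Ideal (𝓞 K)) (hm : m ≠ ⊥) (hmd : m ≤ d) [IsTotallyComplex K] :
    nc m d = Nat.card (RG m d) := by
  have := RG_finite m d hm hmd
  rw [nc, ← exC_range m d hm hmd, Set.ncard_range_of_injective (exC_inj m d),
    (mon_char (RG m d) (RG_inv m d hm hmd)).2.1]

theorem pf_OR : T_OR := by
  intro K _ _ _ m d hm hmd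
  have hfin := RG_finite m d hm hmd
  obtain ⟨hF, -, -, horth⟩ := mon_char (RG m d) (RG_inv m d hm hmd)
  have hnc := nc_eq m d hm hmd
  refine ⟨by rw [← exC_range m d hm hmd]; exact Set.finite_range _, ?_, ?_⟩
  · rw [hnc]; exact Nat.card_pos
  intro I J hI hJ hIm hJm
  have hsum : ∀ f : (Ideal (𝓞 K) → ℂ) → ℂ, ∑ᶠ ψ ∈ Ch m d, f ψ =
      ∑ᶠ χ : RG m d →* ℂ, f (exC m d χ) := by
    intro f
    rw [← exC_range m d hm hmd, finsum_mem_range (exC_inj m d)]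
  refine ⟨fun h => ?_, fun h => ?_⟩
  · rw [finsum_mem_congr rfl (g := fun _ => (1 : ℂ))]
    · have hfi : (Ch m d).Finite := by rw [← exC_range m d hm hmd]; exact Set.finite_range _
      rw [finsum_mem_eq_finite_toFinset_sum _ hfi, Finset.sum_const, nsmul_eq_mul, mul_one,
        nc, Set.ncard_eq_toFinset_card _ hfi]
    · intro ψ hψ
      rw [Rl_eq hψ h, Complex.mul_conj, Complex.normSq_eq_norm_sq, hψ.1.norm J hJ hJm]
      norm_num
  · rw [hsum]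
    have hxy : ((⟨I, hI, hIm⟩ : SMm m) : RG m d) ≠ ((⟨J, hJ, hJm⟩ : SMm m) : RG m d) := by
      intro h2
      exact h ((Con.eq _).1 h2)
    rw [← horth _ _ hxy]
    refine finsum_congr fun χ => ?_
    have h2 := exC_apply m d χ ⟨I, hI, hIm⟩
    have h3 := exC_apply m d χ ⟨J, hJ, hJm⟩
    rw [← h2, ← h3]

end Pool.Agent.H37.CV
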