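import Pool.Agent.H28.RC.Final
import Pool.Agent.H1.CV.WV
import Pool.Agent.H3.CV.GC
import Pool.Agent.H3.CV.RL
import Pool.Agent.H3.CV.RR
import Pool.Agent.H19.CV.CZ
import Pool.Agent.H27.CV.CB
import Pool.Agent.H27.CV.CM
import Pool.Agent.H27.CV.CT
import Pool.Agent.H33.CV.AF2
import Pool.Agent.H34.CV.GB
import Pool.Agent.H37.CV.FIN
import Pool.Agent.H37.CV.FM
import Pool.Agent.H37.CV.IE
import Pool.Agent.H37.CV.OR
import Pool.Agent.H37.CV.SM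
import Pool.Agent.H46.CV.DL
import Pool.Agent.H46.CV.DR
import Pool.Agent.H46.CV.PS
import Pool.Agent.H49.CV.CX
import Pool.Agent.H56.CV.AF1
import Pool.Agent.H56.CV.EN
import Pool.Agent.H56.CV.SH
import Pool.Agent.H59.CV.SMO
import Pool.Agent.H59.CV.SQ
import Pool.Agent.H69.CV.FMO
import Pool.Agent.H69.CV.LM
import Pool.Agent.H69.CV.LR
import Pool.Agent.H81.CV.GL
import Pool.Agent.H86.CV.CR
import Pool.Agent.H86.CV.DV
import Pool.Agent.H86.CV.GU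
import Pool.Agent.H86.CV.UI
import Pool.Agent.H94.CV.F1
import Pool.Agent.H94.CV.HU
import Pool.Agent.H96.CV.DA
import Pool.Agent.H96.CV.DE
import Pool.Agent.H96.CV.DS
import Pool.Agent.H96.CV.DT
import Pool.Agent.H96.CV.HQ
import Pool.Agent.H96.CV.LS
import Pool.Agent.H96.CV.VS
import Pool.Agent.H96.CV.ZK
import Pool.Agent.H97.CV.BG
import Pool.Agent.H97.CV.PG
import Pool.Agent.H97.CV.SR
import Pool.Agent.H97.CV.UQ

/-!
# Central values of the L-functions of ray class characters of CM fields: assembly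
-/

set_option autoImplicit false

namespace Pool.Agent.H37.CV

open Pool.Agent.H28.RC Pool.Agent.H25.HK

theorem a_SH : T_SH := Pool.Agent.H56.CV.pf_SH
theorem a_GB : T_GB := Pool.Agent.H34.CV.pf_GB
theorem a_WV : T_WV := Pool.Agent.H1.CV.pf_WV a_SH a_GB
theorem a_EN : T_EN :=
  Pool.Agent.H56.CV.pf_EN T_WPc_proved c_ME c_CS c_EP T_DU_proved c_CW c_CM T_HEc_proved
theorem a_ZK : T_ZK :=
  Pool.Agent.H96.CV.pf_ZK T_WP_proved T_ME_proved T_CS_proved Pool.Agent.H63.HK.ds T_DU_proved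
    T_HE_proved Pool.Agent.H94.HK.gw
theorem a_AF1 : T_AF1 := Pool.Agent.H56.CV.pf_AF1 a_SH a_GB a_EN a_ZK T_HEc_proved c_GW
theorem a_AF2 : T_AF2 := Pool.Agent.H33.CV.pf_AF2 a_SH a_GB a_EN
theorem a_VS : T_VS := Pool.Agent.H96.CV.pf_VS a_SH a_GB a_ZK
theorem a_DV : T_DV := Pool.Agent.H86.CV.pf_DV
theorem a_SQ : T_SQ := Pool.Agent.H59.CV.pf_SQ a_VS a_WV a_DV
theorem a_OR : T_OR := pf_OR
theorem a_HU : T_HU := Pool.Agent.H94.CV.pf_HU a_OR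
theorem a_UQ : T_UQ := Pool.Agent.H97.CV.pf_UQ
theorem a_UI : T_UI := Pool.Agent.H86.CV.pf_UI
theorem a_HQ : T_HQ := Pool.Agent.H96.CV.pf_HQ a_HU a_UQ a_UI
theorem a_IE : T_IE := pf_IE a_OR
theorem a_BG : T_BG := Pool.Agent.H97.CV.pf_BG
theorem a_CR : T_CR := Pool.Agent.H86.CV.pf_CR
theorem a_SR : T_SR := Pool.Agent.H97.CV.pf_SR a_BG a_CR
theorem a_RR : T_RR := Pool.Agent.H3.CV.pf_RR
theorem a_RL : T_RL := Pool.Agent.H3.CV.pf_RL a_SR a_RR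
theorem a_PG : T_PG := Pool.Agent.H97.CV.pf_PG
theorem a_LM : T_LM := Pool.Agent.H69.CV.pf_LM a_BG a_PG
theorem a_LR : T_LR := Pool.Agent.H69.CV.pf_LR a_LM a_BG a_CR
theorem a_PS : T_PS := Pool.Agent.H46.CV.pf_PS a_LR a_DV
theorem a_CX : T_CX := Pool.Agent.H49.CV.pf_CX
theorem a_CZ : T_CZ := Pool.Agent.H19.CV.pf_CZ
theorem a_CM : T_CM := Pool.Agent.H27.CV.pf_CM a_CX a_CZ
theorem a_CT : T_CT := Pool.Agent.H27.CV.pf_CT a_CX a_CZ
theorem a_CB : T_CB := Pool.Agent.H27.CV.pf_CB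
theorem a_GL : T_GL := Pool.Agent.H81.CV.pf_GL
theorem a_GU : T_GU := Pool.Agent.H86.CV.pf_GU a_DV
theorem a_LS : T_LS := Pool.Agent.H96.CV.pf_LS a_GL
theorem a_GC : T_GC := Pool.Agent.H3.CV.pf_GC
theorem a_SMO : T_SMO := Pool.Agent.H59.CV.pf_SMO a_OR a_GC a_WV a_DV
theorem a_FMO : T_FMO := Pool.Agent.H69.CV.pf_FMO a_OR a_WV a_DV
theorem a_DT : T_DT := Pool.Agent.H96.CV.pf_DT a_CX a_CB a_SQ a_GU a_GC
theorem a_DA : T_DA := Pool.Agent.H96.CV.pf_DA a_CX a_CM a_SQ a_GL a_GU a_LS a_CB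
theorem a_DE : T_DE := Pool.Agent.H96.CV.pf_DE a_CX a_CT a_CB a_SQ a_GL a_GU a_GC
theorem a_DR : T_DR := Pool.Agent.H46.CV.pf_DR a_DE a_DT a_DV
theorem a_DS : T_DS := Pool.Agent.H96.CV.pf_DS a_DT a_DV a_ZK
theorem a_DL : T_DL := Pool.Agent.H46.CV.pf_DL a_DT a_PS a_DV a_HQ a_ZK
theorem a_SM : T_SM := pf_SM a_IE a_EN a_AF2 a_SMO a_DA a_DR a_DS a_DL a_RL a_HQ
theorem a_F1 : T_F1 := Pool.Agent.H94.CV.pf_F1 a_RL a_PS a_DV a_WV a_HQ a_GU a_CX a_ZK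
theorem a_FM : T_FM := pf_FM a_IE a_EN a_AF1 a_FMO a_F1 a_HQ a_CX a_GU

/-- the proportion of the primitive ray class characters of conductor `(q)` of a CM field whose
`L`-functions do not vanish at `1/2` -/
theorem FIN_proved : T_FIN := pf_FIN a_IE a_EN a_SM a_FM a_HQ

end Pool.Agent.H37.CV
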