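import Pool.Agent.H28.RC.Targets3

/-!
# Central values of the L-functions of ray class characters of CM fields: definitions
-/

set_option autoImplicit false

open NumberField NumberField.InfinitePlace Complex Filter Topology

namespace Pool.Agent.H37.CV

open Pool.Agent.H28.RC Pool.Agent.H25.HK

/-! ### Finite sets with norms: Selberg's weights -/

section Comb

variable {α : Type} (N : α → ℝ)

/-- the norm of a finite set -/
noncomputable def nS (S : Finset α) : ℝ := ∏ P ∈ S, N P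

/-- Euler's function of a finite set -/
noncomputable def fS (S : Finset α) : ℝ := ∏ P ∈ S, (N P - 1)

open scoped Classical in
/-- the subsets of `A` of norm at most `M` -/
noncomputable def DS (A : Finset α) (M : ℝ) : Finset (Finset α) :=
  A.powerset.filter fun S => nS N S ≤ M

/-- the sum `G(M)` of `1 / φ(S)` -/
noncomputable def GS (A : Finset α) (M : ℝ) : ℝ := ∑ S ∈ DS N A M, (fS N S)⁻¹

open scoped Classical in
/-- Selberg's weights -/
noncomputable def xS (A : Finset α) (M : ℝ) (S : Finset α) : ℝ :=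
  (-1) ^ S.card * (nS N S / fS N S) *
    (∑ T ∈ (DS N A M).filter (fun T => Disjoint S T ∧ nS N S * nS N T ≤ M), (fS N T)⁻¹) /
      GS N A M

open scoped Classical in
/-- the norm of the gcd of `S J` and `T I`, where `R₁` is the set of the primes of `I` and `R₂` the
set of the primes of `J` -/
noncomputable def gg (R₁ R₂ S T : Finset α) : ℝ :=
  nS N (S ∩ R₁) * nS N (T ∩ R₂) * nS N ((S ∩ T) \ (R₁ ∪ R₂))

end Comb

/-! ### The weight functions of the approximate functional equations -/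

/-- the weight of the first approximate functional equation -/
noncomputable def wf (x : ℝ) : ℂ :=
  ((1 / (2 * Real.pi) : ℝ) : ℂ) * ∫ t : ℝ, cexp ((2 + t * I) ^ 2) / (2 + t * I) *
    (x : ℂ) ^ (-(2 + t * I))

/-- the quotient of the Gamma factors -/
noncomputable def gq (r : ℕ) (s : ℂ) : ℂ := (Gammaℂ (1 / 2 + s) / Gammaℂ (1 / 2)) ^ (2 * r)

/-- the weight of the second approximate functional equation -/
noncomputable def Vf (r : ℕ) (x : ℝ) : ℂ :=
  ((1 / (2 * Real.pi) : ℝ) : ℂ) * ∫ t : ℝ, gq r (2 + t * I) *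
    (cexp ((2 + t * I) ^ 2) / (2 + t * I)) * (x : ℂ) ^ (-(2 + t * I))

section NF

variable (K : Type) [Field K] [NumberField K]

/-- the nonzero ideals -/
abbrev NI : Type := {I : Ideal (𝓞 K) // I ≠ ⊥}

variable {K}

/-- the norm of an ideal as a real number -/
noncomputable def nm (I : Ideal (𝓞 K)) : ℝ := (Ideal.absNorm I : ℝ)

/-- the norm of a prime -/
noncomputable def np (P : PrI K) : ℝ := nm P.1

variable (K) in
open scoped Classical in
/-- the primes of norm at most `M` -/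
noncomputable def PM (M : ℝ) : Finset (PrI K) :=
  if h : {P : PrI K | np P ≤ M}.Finite then h.toFinset else ∅

/-- the product of the primes in `S` -/
noncomputable def idS (S : Finset (PrI K)) : Ideal (𝓞 K) := ∏ P ∈ S, P.1

open scoped Classical in
/-- the primes which divide `I` -/
noncomputable def pf (I : Ideal (𝓞 K)) : Finset (PrI K) :=
  if h : {P : PrI K | I ≤ P.1}.Finite then h.toFinset else ∅

variable (K) in
/-- the squarefree ideals of norm at most `M`, as sets of primes -/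
noncomputable def DM (M : ℝ) : Finset (Finset (PrI K)) := DS np (PM K M) M

variable (K) in
/-- Selberg's weights for `K` -/
noncomputable def xw (M : ℝ) (S : Finset (PrI K)) : ℝ := xS np (PM K M) M S

/-- the mollifier -/
noncomputable def mol (M : ℝ) (ψ : Ideal (𝓞 K) → ℂ) : ℂ :=
  ∑ S ∈ DM K M, (xw K M S : ℂ) * ψ (idS S) * ((nS np S ^ (-(1 / 2) : ℝ) : ℝ) : ℂ)

/-- `I` and `J` are equivalent modulo `d`, with elements prime to `m` -/
def Rl (m d I J : Ideal (𝓞 K)) : Prop :=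
  ∃ a b : 𝓞 K, a ≠ 0 ∧ b ≠ 0 ∧ Ideal.span {a} ⊔ m = ⊤ ∧ Ideal.span {b} ⊔ m = ⊤ ∧ a - b ∈ d ∧
    Ideal.span {a} * I = Ideal.span {b} * J

/-- the characters modulo `m` which are defined modulo `d` on the principal ideals -/
def Ch (m d : Ideal (𝓞 K)) : Set (Ideal (𝓞 K) → ℂ) :=
  {ψ | PC m ψ ∧ ∀ a b : 𝓞 K, a ≠ 0 → b ≠ 0 → Ideal.span {a} ⊔ m = ⊤ → Ideal.span {b} ⊔ m = ⊤ →
    a - b ∈ d → ψ (Ideal.span {a}) = ψ (Ideal.span {b})}

/-- the number of these characters -/
noncomputable def nc (m d : Ideal (𝓞 K)) : ℕ := (Ch m d).ncard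

/-- the number of the classes modulo `d` of the units -/
noncomputable def uc (d : Ideal (𝓞 K)) : ℕ :=
  (Set.range fun u : (𝓞 K)ˣ => Ideal.Quotient.mk d (u : 𝓞 K)).ncard

/-- the pairs of coprime ideals prime to `m` which are equivalent modulo `d` -/
def CP (m d : Ideal (𝓞 K)) : Set (Ideal (𝓞 K) × Ideal (𝓞 K)) :=
  {p | p.1 ≠ ⊥ ∧ p.2 ≠ ⊥ ∧ p.1 ⊔ p.2 = ⊤ ∧ p.1 ⊔ m = ⊤ ∧ p.2 ⊔ m = ⊤ ∧ Rl m d p.1 p.2}

/-- the ideal generated by `q` -/
noncomputable def qi (K : Type) [Field K] [NumberField K] (q : ℕ) : Ideal (𝓞 K) :=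
  Ideal.span {(q : 𝓞 K)}

variable (K) in
/-- the primitive ray class characters of conductor `m` -/
def Pr (m : Ideal (𝓞 K)) : Set (RCC K) := {χ | χ.f = m}

/-- `Z` is the entire continuation of the `L`-function of `χ` -/
def IsEnt (χ : RCC K) (Z : ℂ → ℂ) : Prop :=
  Differentiable ℂ Z ∧ ∀ s : ℂ, 1 < s.re → Z s = Lc χ s

open scoped Classical in
/-- the central value -/
noncomputable def cval (χ : RCC K) : ℂ := if h : ∃ Z, IsEnt χ Z then h.choose (1 / 2) else 0

/-- the conductor -/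
noncomputable def cnd (K : Type) [Field K] [NumberField K] (m : Ideal (𝓞 K)) : ℝ :=
  |(discr K : ℝ)| * nm m

/-- the first sum -/
noncomputable def A1 (X : ℝ) (ψ : Ideal (𝓞 K) → ℂ) : ℂ :=
  ∑' a : NI K, ψ a.1 * ((nm a.1 ^ (-(1 / 2) : ℝ) : ℝ) : ℂ) * wf (nm a.1 / X)

/-- the second sum -/
noncomputable def A2 (Q : ℝ) (ψ : Ideal (𝓞 K) → ℂ) : ℂ :=
  ∑' p : NI K × NI K, ψ p.1.1 * (starRingEnd ℂ) (ψ p.2.1) *
    (((nm p.1.1 * nm p.2.1) ^ (-(1 / 2) : ℝ) : ℝ) : ℂ) *
      Vf (nrComplexPlaces K) (nm p.1.1 * nm p.2.1 / Q)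

/-- the sum over the ideals prime to `m` -/
noncomputable def Sm (m : Ideal (𝓞 K)) (Z : ℝ) : ℂ :=
  ∑' t : {t : Ideal (𝓞 K) // t ≠ ⊥ ∧ t ⊔ m = ⊤}, (((nm t.1)⁻¹ : ℝ) : ℂ) *
    Vf (nrComplexPlaces K) (nm t.1 ^ 2 / Z)

/-- the contribution of the relation `(I, J)` to the second moment -/
noncomputable def Dd (m : Ideal (𝓞 K)) (Q M : ℝ) (I J : Ideal (𝓞 K)) : ℂ :=
  (((nm I * nm J) ^ (-(1 / 2) : ℝ) : ℝ) : ℂ) * ∑ S ∈ DM K M, ∑ T ∈ DM K M,
    ((xw K M S * xw K M T * (gg np (pf I) (pf J) S T / (nS np S * nS np T)) : ℝ) : ℂ) *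
      Sm m (Q * gg np (pf I) (pf J) S T ^ 2 / (nS np S * nS np T * (nm I * nm J)))

open scoped Classical in
/-- the coefficients of the first moment -/
noncomputable def lam (X M : ℝ) (n : Ideal (𝓞 K)) : ℂ :=
  ∑ S ∈ (DM K M).filter (fun S => idS S ∣ n), (xw K M S : ℂ) * wf (nm n / (nS np S * X))

/-- the residue of the zeta function -/
noncomputable def rho (K : Type) [Field K] [NumberField K] : ℝ := dedekindZeta_residue K

open scoped Classical in
/-- the maximal real subfield -/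
abbrev Kp (K : Type) [Field K] : Type := maximalRealSubfield K

/-- the pair comes from ideals of the maximal real subfield -/
def Real2 (p : Ideal (𝓞 K) × Ideal (𝓞 K)) (y₁ y₂ : Ideal (𝓞 (Kp K))) : Prop :=
  y₁ ≠ ⊥ ∧ y₂ ≠ ⊥ ∧ p.1 = y₁.map (algebraMap (𝓞 (Kp K)) (𝓞 K)) ∧
    p.2 = y₂.map (algebraMap (𝓞 (Kp K)) (𝓞 K)) ∧ nm p.1 = nm y₁ ^ 2 ∧ nm p.2 = nm y₂ ^ 2

/-- the congruence between the norms -/
def Cg (q : ℕ) (y₁ y₂ : Ideal (𝓞 (Kp K))) : Prop :=
  (q : ℤ) ∣ (Ideal.absNorm y₁ : ℤ) - Ideal.absNorm y₂ ∨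
    (q : ℤ) ∣ (Ideal.absNorm y₁ : ℤ) + Ideal.absNorm y₂

end NF

end Pool.Agent.H37.CV
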