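import Pool.Agent.H37.CV.Defs

/-!
# Central values of the L-functions of ray class characters of CM fields: targets
-/

set_option autoImplicit false

open NumberField NumberField.InfinitePlace Complex Filter Topology MeasureTheory

namespace Pool.Agent.H37.CV

open Pool.Agent.H28.RC Pool.Agent.H25.HK

/-! ### A. Analysis -/

/-- (SH) contour shifts: without a pole, with a simple pole, with a double pole. -/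
def T_SH : Prop :=
  ∀ (F : ℂ → ℂ) (a b : ℝ), a ≤ b →
    (∀ s : ℂ, a ≤ s.re → s.re ≤ b → DifferentiableAt ℂ F s) →
    (∃ C A : ℝ, ∀ s : ℂ, a ≤ s.re → s.re ≤ b → ‖F s‖ ≤ C * (1 + |s.im|) ^ A) →
    (Integrable (fun t : ℝ => F (b + t * I) * cexp ((b + t * I) ^ 2)) ∧
      Integrable (fun t : ℝ => F (a + t * I) * cexp ((a + t * I) ^ 2)) ∧
      ∫ t : ℝ, F (b + t * I) * cexp ((b + t * I) ^ 2) =
        ∫ t : ℝ, F (a + t * I) * cexp ((a + t * I) ^ 2)) ∧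
    (a < 0 → 0 < b →
      Integrable (fun t : ℝ => F (b + t * I) * (cexp ((b + t * I) ^ 2) / (b + t * I))) ∧
      Integrable (fun t : ℝ => F (a + t * I) * (cexp ((a + t * I) ^ 2) / (a + t * I))) ∧
      (∫ t : ℝ, F (b + t * I) * (cexp ((b + t * I) ^ 2) / (b + t * I))) -
        (∫ t : ℝ, F (a + t * I) * (cexp ((a + t * I) ^ 2) / (a + t * I))) =
          2 * Real.pi * F 0) ∧
    (a < 0 → 0 < b →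
      Integrable (fun t : ℝ => F (b + t * I) * (cexp ((b + t * I) ^ 2) / (b + t * I) ^ 2)) ∧
      Integrable (fun t : ℝ => F (a + t * I) * (cexp ((a + t * I) ^ 2) / (a + t * I) ^ 2)) ∧
      (∫ t : ℝ, F (b + t * I) * (cexp ((b + t * I) ^ 2) / (b + t * I) ^ 2)) -
        (∫ t : ℝ, F (a + t * I) * (cexp ((a + t * I) ^ 2) / (a + t * I) ^ 2)) =
          2 * Real.pi * deriv F 0)

/-- (GB) bounds for the Gamma factors. -/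
def T_GB : Prop :=
  (∀ (r : ℕ) (b : ℝ), gq r 0 = 1 ∧ ∃ C A : ℝ, ∀ s : ℂ, -(1 / 4) ≤ s.re → s.re ≤ b →
    DifferentiableAt ℂ (gq r) s ∧ ‖gq r s‖ ≤ C * (1 + |s.im|) ^ A) ∧
  ∀ A : ℕ, ∃ C : ℝ, ∀ t : ℝ, Gammaℂ (1 / 2 - A + t * I) ≠ 0 ∧
    ‖Gammaℂ (1 / 2 + A - t * I)‖ ≤ C * (1 + |t|) ^ (2 * A) * ‖Gammaℂ (1 / 2 - A + t * I)‖

/-- (WV) bounds for the weights. -/
def T_WV : Prop :=
  (∀ A : ℕ, ∃ C : ℝ, ∀ x : ℝ, 0 < x → ‖wf x‖ * x ^ A ≤ C ∧ ‖wf x - 1‖ ≤ C * x ^ A) ∧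
  ∀ r A : ℕ, ∃ C : ℝ, ∀ x : ℝ, 0 < x → ‖Vf r x‖ * x ^ A ≤ C

/-- (EN) Hecke's theorem for primitive ray class characters of conductor `≠ 1`. -/
def T_EN : Prop :=
  ∀ (K : Type) [Field K] [NumberField K] [IsTotallyComplex K] (χ : RCC K), χ.f ≠ ⊤ →
    ∃ (Z Λ : ℂ → ℂ) (ε : ℂ), IsEnt χ Z ∧ Differentiable ℂ Λ ∧
      (∀ s : ℂ, (∀ n : ℕ, s ≠ -(n : ℂ)) →
        Λ s = ((cnd K χ.f : ℝ) : ℂ) ^ (s / 2) * Gammaℂ s ^ nrComplexPlaces K * Z s) ∧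
      ‖ε‖ = 1 ∧ (∀ s : ℂ, Λ s = ε * (starRingEnd ℂ) (Λ (1 - (starRingEnd ℂ) s))) ∧
      ∀ b : ℝ, ∃ C : ℝ, ∀ s : ℂ, |s.re| ≤ b → ‖Λ s‖ ≤ C

/-- (ZK) the zeta function of `K`. -/
def T_ZK : Prop :=
  ∀ (K : Type) [Field K] [NumberField K], ∃ E : ℂ → ℂ, Differentiable ℂ E ∧
    (∀ s : ℂ, 1 < s.re → Summable (fun I : NI K => ‖((nm I.1 : ℝ) : ℂ) ^ (-s)‖) ∧
      E s = (s - 1) * ∑' I : NI K, ((nm I.1 : ℝ) : ℂ) ^ (-s)) ∧ E 1 = (rho K : ℂ) ∧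
    ∀ b : ℝ, ∃ C A : ℝ, ∀ s : ℂ, |s.re| ≤ b → ‖E s‖ ≤ C * (1 + |s.im|) ^ A

/-- (AF1) the first approximate functional equation. -/
def T_AF1 : Prop :=
  ∀ (K : Type) [Field K] [NumberField K] [IsTotallyComplex K] (A : ℕ), 1 ≤ A → ∃ C : ℝ,
    ∀ χ : RCC K, χ.f ≠ ⊤ → ∀ Z : ℂ → ℂ, IsEnt χ Z → ∀ X : ℝ, 0 < X →
      ‖Z (1 / 2) - A1 X χ.ψ‖ ≤ C * (cnd K χ.f / X) ^ A

/-- (AF2) the second approximate functional equation. -/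
def T_AF2 : Prop :=
  ∀ (K : Type) [Field K] [NumberField K] [IsTotallyComplex K] (χ : RCC K), χ.f ≠ ⊤ →
    ∀ Z : ℂ → ℂ, IsEnt χ Z → ((‖Z (1 / 2)‖ ^ 2 : ℝ) : ℂ) = 2 * A2 (cnd K χ.f) χ.ψ

/-- (VS) the sum over all ideals. -/
def T_VS : Prop :=
  ∀ (K : Type) [Field K] [NumberField K] [IsTotallyComplex K], ∃ (C₀ : ℂ) (C : ℝ),
    ∀ Z : ℝ, 1 ≤ Z →
      ‖Sm (K := K) ⊤ Z - (((rho K / 2 * Real.log Z : ℝ) : ℂ) + C₀)‖ ≤ C * Z ^ (-(1 / 8) : ℝ)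

/-- (SQ) the sum over the ideals prime to `q`. -/
def T_SQ : Prop :=
  ∀ (K : Type) [Field K] [NumberField K] [IsTotallyComplex K], ∃ C₀ : ℂ,
    (∃ C : ℝ, ∀ q : ℕ, q.Prime → ∀ Z : ℝ, 1 ≤ Z →
      ‖Sm (qi K q) Z - (((rho K / 2 * Real.log Z : ℝ) : ℂ) + C₀)‖ ≤
        C * (Z ^ (-(1 / 8) : ℝ) + (1 + Real.log Z) / q)) ∧
    ∀ A : ℕ, ∃ C : ℝ, ∀ (m : Ideal (𝓞 K)) (Z : ℝ), 0 < Z →
      ‖Sm m Z‖ ≤ C * (1 + max (Real.log Z) 0) * min 1 (Z ^ A)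

/-! ### B. Ray class characters and units -/

/-- (OR) orthogonality. -/
def T_OR : Prop :=
  ∀ (K : Type) [Field K] [NumberField K] [IsTotallyComplex K] (m d : Ideal (𝓞 K)), m ≠ ⊥ →
    m ≤ d → (Ch m d).Finite ∧ 0 < nc m d ∧ ∀ I J : Ideal (𝓞 K), I ≠ ⊥ → J ≠ ⊥ → I ⊔ m = ⊤ →
      J ⊔ m = ⊤ →
      (Rl m d I J → ∑ᶠ ψ ∈ Ch m d, ψ I * (starRingEnd ℂ) (ψ J) = nc m d) ∧
      (¬ Rl m d I J → ∑ᶠ ψ ∈ Ch m d, ψ I * (starRingEnd ℂ) (ψ J) = 0)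

/-- (HU) the number of characters and the number of units. -/
def T_HU : Prop :=
  ∀ (K : Type) [Field K] [NumberField K] [IsTotallyComplex K], ∃ C : ℕ,
    ∀ m d : Ideal (𝓞 K), m ≠ ⊥ → m ≤ d →
      Nat.card (𝓞 K ⧸ d)ˣ ≤ nc m d * uc d ∧ nc m d * uc d ≤ C * Ideal.absNorm d

/-- (UQ) the units of a CM field modulo `q`. -/
def T_UQ : Prop :=
  ∀ (K : Type) [Field K] [NumberField K] [IsCMField K], ∃ C : ℝ, ∀ q : ℕ, q.Prime →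
    (uc (qi K q) : ℝ) ≤ C * (q : ℝ) ^ ((Module.finrank ℚ K : ℝ) / 2 - 1)

/-- (UI) the units of a CM field modulo a divisor of `q`. -/
def T_UI : Prop :=
  ∀ (K : Type) [Field K] [NumberField K] [IsCMField K], ∃ (C : ℝ) (q₀ : ℕ), ∀ q : ℕ, q.Prime →
    q₀ ≤ q → ∀ d : Ideal (𝓞 K), qi K q ≤ d → d ≠ qi K q →
      (uc (qi K q) : ℝ) * nm d ≤
        C * (q : ℝ) ^ (-(1 / 2) : ℝ) * (q : ℝ) ^ (Module.finrank ℚ K) * uc d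

/-- (HQ) the numbers of characters for a CM field. -/
def T_HQ : Prop :=
  ∀ (K : Type) [Field K] [NumberField K] [IsCMField K], ∃ (c C : ℝ) (q₀ : ℕ), 0 < c ∧
    ∀ q : ℕ, q.Prime → q₀ ≤ q →
      c * (q : ℝ) ^ ((Module.finrank ℚ K : ℝ) / 2 + 1) ≤ nc (qi K q) (qi K q) ∧
      ∀ d : Ideal (𝓞 K), qi K q ≤ d → (nc (qi K q) d : ℝ) * uc d ≤ C * nm d ∧
        (d ≠ qi K q →
          (nc (qi K q) d : ℝ) ≤ C * (q : ℝ) ^ (-(1 / 2) : ℝ) * nc (qi K q) (qi K q))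

/-- (IE) primitive characters by inclusion and exclusion. -/
def T_IE : Prop :=
  ∀ (K : Type) [Field K] [NumberField K] [IsTotallyComplex K] (q : ℕ), q.Prime →
    (Pr K (qi K q)).Finite ∧ ∃ (T : Finset (Ideal (𝓞 K))) (σ : Ideal (𝓞 K) → ℤ),
      T.card ≤ 2 ^ Module.finrank ℚ K ∧
      (∀ d ∈ T, qi K q ≤ d ∧ d ≠ qi K q ∧ |σ d| ≤ 2 ^ Module.finrank ℚ K) ∧
      ∀ f : (Ideal (𝓞 K) → ℂ) → ℂ, ∑ᶠ χ ∈ Pr K (qi K q), f χ.ψ =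
        (∑ᶠ ψ ∈ Ch (qi K q) (qi K q), f ψ) +
          ∑ d ∈ T, (σ d : ℂ) * ∑ᶠ ψ ∈ Ch (qi K q) d, f ψ

/-- (BG) units which balance a vector. -/
def T_BG : Prop :=
  ∀ (K : Type) [Field K] [NumberField K], ∃ C : ℝ, 1 ≤ C ∧ ∀ s : InfinitePlace K → ℝ,
    (∀ v, 0 < s v) → ∃ u : (𝓞 K)ˣ, ∀ v : InfinitePlace K,
      v (u : K) * s v ≤ C * (∏ w, s w ^ w.mult) ^ (1 / (Module.finrank ℚ K : ℝ))

/-- (CR) integral representatives of the ideal classes. -/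
def T_CR : Prop :=
  ∀ (K : Type) [Field K] [NumberField K], ∃ G : Finset (Ideal (𝓞 K)), (∀ g ∈ G, g ≠ ⊥) ∧
    ∀ I : Ideal (𝓞 K), I ≠ ⊥ → ∃ g ∈ G, ∃ a : 𝓞 K, a ≠ 0 ∧ g * I = Ideal.span {a}

/-- (SR) short relations are real. -/
def T_SR : Prop :=
  ∀ (K : Type) [Field K] [NumberField K] [IsCMField K], ∃ c : ℝ, 0 < c ∧ ∀ q : ℕ, q.Prime →
    ∀ d : Ideal (𝓞 K), qi K q ≤ d → ∀ I J : Ideal (𝓞 K), I ≠ ⊥ → J ≠ ⊥ → I ⊔ qi K q = ⊤ →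
      J ⊔ qi K q = ⊤ → Rl (qi K q) d I J →
      nm I * nm J * (q : ℝ) ^ Module.finrank ℚ K < c * nm d ^ 2 →
      ∃ a b : 𝓞 (Kp K), a ≠ 0 ∧ b ≠ 0 ∧
        Ideal.span {algebraMap (𝓞 (Kp K)) (𝓞 K) a} ⊔ qi K q = ⊤ ∧
        Ideal.span {algebraMap (𝓞 (Kp K)) (𝓞 K) b} ⊔ qi K q = ⊤ ∧
        algebraMap (𝓞 (Kp K)) (𝓞 K) a - algebraMap (𝓞 (Kp K)) (𝓞 K) b ∈ d ∧
        Ideal.span {algebraMap (𝓞 (Kp K)) (𝓞 K) b} * I =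
          Ideal.span {algebraMap (𝓞 (Kp K)) (𝓞 K) a} * J

/-- (RR) real relations come from ideals of the maximal real subfield. -/
def T_RR : Prop :=
  ∀ (K : Type) [Field K] [NumberField K] [IsCMField K] (q : ℕ), q.Prime →
    ∀ (I J : Ideal (𝓞 K)) (a b : 𝓞 (Kp K)), I ≠ ⊥ → J ≠ ⊥ → I ⊔ J = ⊤ → a ≠ 0 → b ≠ 0 →
      Ideal.span {algebraMap (𝓞 (Kp K)) (𝓞 K) a} ⊔ qi K q = ⊤ →
      Ideal.span {algebraMap (𝓞 (Kp K)) (𝓞 K) b} ⊔ qi K q = ⊤ →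
      Ideal.span {algebraMap (𝓞 (Kp K)) (𝓞 K) b} * I =
        Ideal.span {algebraMap (𝓞 (Kp K)) (𝓞 K) a} * J →
      ∃ y₁ y₂ : Ideal (𝓞 (Kp K)), Real2 (I, J) y₁ y₂ ∧
        (algebraMap (𝓞 (Kp K)) (𝓞 K) a - algebraMap (𝓞 (Kp K)) (𝓞 K) b ∈ qi K q → Cg q y₁ y₂)

/-- (RL) short relations. -/
def T_RL : Prop :=
  ∀ (K : Type) [Field K] [NumberField K] [IsCMField K], ∃ c : ℝ, 0 < c ∧ ∀ q : ℕ, q.Prime →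
    ∀ d : Ideal (𝓞 K), qi K q ≤ d → ∀ p ∈ CP (qi K q) d,
      nm p.1 * nm p.2 * (q : ℝ) ^ Module.finrank ℚ K < c * nm d ^ 2 →
      ∃ y₁ y₂ : Ideal (𝓞 (Kp K)), Real2 p y₁ y₂ ∧ (d = qi K q → Cg q y₁ y₂)

/-- (PG) the pigeonhole principle. -/
def T_PG : Prop :=
  ∀ (K : Type) [Field K] [NumberField K], ∃ C : ℝ, 1 ≤ C ∧ ∀ (X : Finset K) (T c : ℝ), 0 ≤ T →
    0 < c → (∀ x ∈ X, ∀ v : InfinitePlace K, v x ≤ T) →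
    (∀ x ∈ X, ∀ y ∈ X, x ≠ y → c ≤ |((Algebra.norm ℚ (x - y) : ℚ) : ℝ)|) →
    (X.card : ℝ) ≤ C * (1 + T ^ Module.finrank ℚ K / c)

/-- (LM) counting the pairs `(α, β)` with `α ≡ η β` modulo `d`. -/
def T_LM : Prop :=
  ∀ (K : Type) [Field K] [NumberField K], ∃ C : ℝ, ∀ (d : Ideal (𝓞 K)) (η : 𝓞 K) (R₁ R₂ : ℝ)
    (X : Finset (𝓞 K × 𝓞 K)), d ≠ ⊥ → 0 < R₁ → 0 < R₂ →
    (∀ p ∈ X, p.1 - η * p.2 ∈ d ∧ ∀ v : InfinitePlace K, v (p.1 : K) ≤ R₁ ∧ v (p.2 : K) ≤ R₂) →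
    (∃ p ∈ X, ∃ p' ∈ X, p.1 * p'.2 ≠ p'.1 * p.2) →
    (X.card : ℝ) ≤ C * (R₁ * R₂) ^ Module.finrank ℚ K / nm d

/-- (LR) counting the relations. -/
def T_LR : Prop :=
  ∀ (K : Type) [Field K] [NumberField K], ∃ C : ℝ, ∀ (m d : Ideal (𝓞 K)) (A B : ℝ)
    (X : Finset (Ideal (𝓞 K) × Ideal (𝓞 K))), m ≠ ⊥ → m ≤ d → 1 ≤ A → 1 ≤ B →
    (∀ p ∈ X, p ∈ CP m d ∧ nm p.1 ≤ A ∧ nm p.2 ≤ B) →
    (X.card : ℝ) ≤ C * uc d * (1 + A * B / nm d)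

/-- (DV) divisors and numbers of ideals. -/
def T_DV : Prop :=
  ∀ (K : Type) [Field K] [NumberField K],
    (∀ ε : ℝ, 0 < ε → ∃ C : ℝ, 1 ≤ C ∧
      (∀ n : ℕ, 1 ≤ n → ∀ X : Finset (Ideal (𝓞 K)), (∀ I ∈ X, Ideal.absNorm I = n) →
        (X.card : ℝ) ≤ C * (n : ℝ) ^ ε) ∧
      ∀ I : Ideal (𝓞 K), I ≠ ⊥ → (2 : ℝ) ^ (pf I).card ≤ C * nm I ^ ε) ∧
    ∃ C : ℝ, ∀ (x : ℝ) (X : Finset (Ideal (𝓞 K))), 1 ≤ x → (∀ I ∈ X, I ≠ ⊥ ∧ nm I ≤ x) →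
      (X.card : ℝ) ≤ C * x ∧ ∑ I ∈ X, (nm I)⁻¹ ≤ C * (1 + Real.log x)

/-- (PS) sums over the relations in a range. -/
def T_PS : Prop :=
  ∀ (K : Type) [Field K] [NumberField K] (ε : ℝ), 0 < ε → ∃ C : ℝ, ∀ (m d : Ideal (𝓞 K))
    (L R : ℝ) (X : Finset (Ideal (𝓞 K) × Ideal (𝓞 K))), m ≠ ⊥ → m ≤ d → 1 ≤ L → L ≤ R →
    (∀ p ∈ X, p ∈ CP m d ∧ L ≤ nm p.1 * nm p.2 ∧ nm p.1 * nm p.2 ≤ R) →
    ∑ p ∈ X, (2 : ℝ) ^ ((pf p.1).card + (pf p.2).card) * (nm p.1 * nm p.2) ^ (-(1 / 2) : ℝ) ≤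
      C * R ^ ε * uc d * (L ^ (-(1 / 2) : ℝ) + R ^ (1 / 2 : ℝ) / nm d)

/-! ### C. Selberg's weights -/

/-- (CX) the weights are bounded by one. -/
def T_CX : Prop :=
  ∀ (α : Type) (N : α → ℝ) (A : Finset α) (M : ℝ), (∀ P, 2 ≤ N P) → 1 ≤ M →
    xS N A M ∅ = 1 ∧ 1 ≤ GS N A M ∧ ∀ S, S ⊆ A → |xS N A M S| ≤ 1

open scoped Classical in
/-- (CZ) sums of the weights over the sets which contain `E`. -/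
def T_CZ : Prop :=
  ∀ (α : Type) (N : α → ℝ) (A R E : Finset α) (M : ℝ), (∀ P, 2 ≤ N P) → 1 ≤ M → R ⊆ A →
    E ⊆ A → Disjoint E R →
    ∑ S ∈ (DS N A M).filter (fun S => E ⊆ S), xS N A M S * (nS N (S ∩ R) / nS N S) =
      (-1) ^ E.card / (fS N E * GS N A M) *
        ∑ n ∈ R.powerset.filter (fun n => nS N n * nS N E ≤ M), (-1) ^ n.card ∧
    ∀ P ∈ R, ∑ S ∈ (DS N A M).filter (fun S => E ⊆ S ∧ P ∈ S),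
        xS N A M S * (nS N (S ∩ R) / nS N S) =
      (-1) ^ E.card / (fS N E * GS N A M) * (N P / (N P - 1)) *
        ∑ n ∈ R.powerset.filter (fun n => P ∈ n ∧ nS N n * nS N E ≤ M), (-1) ^ n.card

open scoped Classical in
/-- (CM) the main term of the quadratic form. -/
def T_CM : Prop :=
  ∀ (α : Type) (N : α → ℝ) (A : Finset α) (M : ℝ), (∀ P, 2 ≤ N P) → 1 ≤ M →
    ∑ S ∈ DS N A M, ∑ T ∈ DS N A M,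
      xS N A M S * xS N A M T * (gg N ∅ ∅ S T / (nS N S * nS N T)) = (GS N A M)⁻¹ ∧
    ∑ S ∈ DS N A M, ∑ T ∈ DS N A M,
      xS N A M S * xS N A M T * (gg N ∅ ∅ S T / (nS N S * nS N T)) *
        Real.log (gg N ∅ ∅ S T ^ 2 / (nS N S * nS N T)) ≤
      2 / GS N A M ^ 2 * ∑ S ∈ DS N A M, Real.log (nS N S) / fS N S +
        2 / GS N A M * ∑ P ∈ A, Real.log (N P) / (N P - 1) ^ 2

open scoped Classical in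
/-- (CT) the twisted quadratic form. -/
def T_CT : Prop :=
  ∀ (α : Type) (N : α → ℝ) (A R₁ R₂ : Finset α) (M D : ℝ), (∀ P, 2 ≤ N P) → 1 ≤ M →
    R₁ ⊆ A → R₂ ⊆ A → R₁.Nonempty → R₂.Nonempty → Disjoint R₁ R₂ →
    GS N A M - GS N A (M / nS N R₁) ≤ D → GS N A M - GS N A (M / nS N R₂) ≤ D →
    |∑ S ∈ DS N A M, ∑ T ∈ DS N A M,
      xS N A M S * xS N A M T * (gg N R₁ R₂ S T / (nS N S * nS N T))| ≤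
        2 ^ (R₁.card + R₂.card) * D / GS N A M ^ 2 ∧
    |∑ S ∈ DS N A M, ∑ T ∈ DS N A M,
      xS N A M S * xS N A M T * (gg N R₁ R₂ S T / (nS N S * nS N T)) *
        Real.log (gg N R₁ R₂ S T ^ 2 / (nS N S * nS N T))| ≤
      8 * 2 ^ (R₁.card + R₂.card) * (Real.log M + Real.log (nS N R₁) + Real.log (nS N R₂)) * D /
        GS N A M ^ 2

open scoped Classical in
/-- (CB) the trivial bound of the twisted form. -/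
def T_CB : Prop :=
  ∀ (α : Type) (N : α → ℝ) (A R₁ R₂ : Finset α) (M : ℝ), (∀ P, 2 ≤ N P) → 1 ≤ M →
    Disjoint R₁ R₂ →
    (∀ S ∈ DS N A M, ∀ T ∈ DS N A M, 1 ≤ gg N R₁ R₂ S T ∧
      gg N R₁ R₂ S T ^ 2 / (nS N S * nS N T) ≤ M ^ 2) ∧
    ∑ S ∈ DS N A M, ∑ T ∈ DS N A M, gg N R₁ R₂ S T / (nS N S * nS N T) ≤
      2 ^ (R₁.card + R₂.card) * GS N A M ^ 3

/-- (GL) the lower bound of `G`. -/
def T_GL : Prop :=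
  ∀ (K : Type) [Field K] [NumberField K] (ε : ℝ), 0 < ε → ∃ M₀ : ℝ, 1 ≤ M₀ ∧ ∀ M : ℝ, M₀ ≤ M →
    (1 - ε) * rho K * Real.log M ≤ GS np (PM K M) M

/-- (GU) upper bounds of `G`. -/
def T_GU : Prop :=
  ∀ (K : Type) [Field K] [NumberField K], ∃ C : ℝ, (∀ M R : ℝ, 1 ≤ M → 1 ≤ R →
    GS np (PM K M) M - GS np (PM K M) (M / R) ≤ C * (1 + Real.log R)) ∧
    (∀ M : ℝ, 1 ≤ M → GS np (PM K M) M ≤ C * (1 + Real.log M)) ∧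
    ∀ X : Finset (PrI K), ∑ P ∈ X, Real.log (np P) / (np P - 1) ^ 2 ≤ C

/-- (LS) the sum of `log N(S) / φ(S)`. -/
def T_LS : Prop :=
  ∀ (K : Type) [Field K] [NumberField K] (ε : ℝ), 0 < ε → ∃ M₀ : ℝ, 1 ≤ M₀ ∧ ∀ M : ℝ, M₀ ≤ M →
    ∑ S ∈ DM K M, Real.log (nS np S) / fS np S ≤
      GS np (PM K M) M * Real.log M - (1 - ε) * rho K * Real.log M ^ 2 / 2

/-! ### D. The moments -/

open scoped Classical in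
/-- (GC) the greatest common divisor. -/
def T_GC : Prop :=
  ∀ (K : Type) [Field K] [NumberField K] (S T : Finset (PrI K)), nm (idS S) = nS np S ∧
    ∀ (I J : Ideal (𝓞 K)), I ≠ ⊥ → J ≠ ⊥ → I ⊔ J = ⊤ → Disjoint (pf I) (pf J) ∧
      ∃ g u v : Ideal (𝓞 K), g ≠ ⊥ ∧ idS S * J = g * u ∧ idS T * I = g * v ∧ u ⊔ v = ⊤ ∧
        nm g = gg np (pf I) (pf J) S T

open scoped Classical in
/-- (SMO) the second moment opened. -/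
def T_SMO : Prop :=
  ∀ (K : Type) [Field K] [NumberField K] [IsTotallyComplex K] (m d : Ideal (𝓞 K)) (Q M : ℝ),
    m ≠ ⊥ → m ≤ d → 0 < Q → 1 ≤ M → (∀ P : PrI K, m ≤ P.1 → M < np P) →
    Summable (fun p : CP m d => ‖Dd m Q M p.1.1 p.1.2‖) ∧
    ∑ᶠ ψ ∈ Ch m d, A2 Q ψ * ((‖mol M ψ‖ ^ 2 : ℝ) : ℂ) =
      nc m d * ∑' p : CP m d, Dd m Q M p.1.1 p.1.2

/-- (FMO) the first moment opened. -/
def T_FMO : Prop :=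
  ∀ (K : Type) [Field K] [NumberField K] [IsTotallyComplex K] (m d : Ideal (𝓞 K)) (X M : ℝ),
    m ≠ ⊥ → m ≤ d → 0 < X → 1 ≤ M → (∀ P : PrI K, m ≤ P.1 → M < np P) →
    Summable (fun n : {n : Ideal (𝓞 K) // (n, ⊤) ∈ CP m d} =>
      ‖lam X M n.1‖ * nm n.1 ^ (-(1 / 2) : ℝ)) ∧
    ∑ᶠ ψ ∈ Ch m d, A1 X ψ * mol M ψ =
      nc m d * ∑' n : {n : Ideal (𝓞 K) // (n, ⊤) ∈ CP m d},
        lam X M n.1 * ((nm n.1 ^ (-(1 / 2) : ℝ) : ℝ) : ℂ)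

/-- (DT) the trivial bound of `Dd`. -/
def T_DT : Prop :=
  ∀ (K : Type) [Field K] [NumberField K] [IsTotallyComplex K] (A : ℕ), ∃ C : ℝ,
    ∀ (m : Ideal (𝓞 K)) (Q M : ℝ) (I J : Ideal (𝓞 K)), 1 ≤ Q → 1 ≤ M → I ≠ ⊥ → J ≠ ⊥ →
      I ⊔ J = ⊤ →
      ‖Dd m Q M I J‖ ≤ C * (nm I * nm J) ^ (-(1 / 2) : ℝ) * 2 ^ ((pf I).card + (pf J).card) *
        (1 + Real.log Q + Real.log M) ^ 4 * min 1 ((Q * M ^ 2 / (nm I * nm J)) ^ A)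

/-- (DA) the diagonal term. -/
def T_DA : Prop :=
  ∀ (K : Type) [Field K] [NumberField K] [IsCMField K] (ε₁ η : ℝ), 0 < ε₁ → ε₁ < 1 / 2 → 0 < η →
    ∃ q₀ : ℕ, ∀ q : ℕ, q.Prime → q₀ ≤ q →
      (2 * Dd (qi K q) (cnd K (qi K q)) ((q : ℝ) ^ (1 - 2 * ε₁)) ⊤ ⊤).re ≤
        1 + (Module.finrank ℚ K : ℝ) / (1 - 2 * ε₁) + η

/-- (DE) the terms with a small relation. -/
def T_DE : Prop :=
  ∀ (K : Type) [Field K] [NumberField K] [IsCMField K] (ε₁ : ℝ), 0 < ε₁ → ε₁ < 1 / 2 →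
    ∃ (δ C : ℝ) (q₀ : ℕ), 0 < δ ∧ ∀ q : ℕ, q.Prime → q₀ ≤ q → ∀ I J : Ideal (𝓞 K), I ≠ ⊥ →
      J ≠ ⊥ → I ≠ ⊤ → J ≠ ⊤ → I ⊔ J = ⊤ → nm I * nm J ≤ (q : ℝ) ^ δ →
      ‖Dd (qi K q) (cnd K (qi K q)) ((q : ℝ) ^ (1 - 2 * ε₁)) I J‖ ≤
        C / Real.log q * (nm I * nm J) ^ (-(1 / 2) : ℝ) * 2 ^ ((pf I).card + (pf J).card) *
          (1 + Real.log (nm I * nm J)) ^ 2

/-- (DR) the real relations with the congruence. -/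
def T_DR : Prop :=
  ∀ (K : Type) [Field K] [NumberField K] [IsCMField K] (ε₁ η : ℝ), 0 < ε₁ → ε₁ < 1 / 2 → 0 < η →
    ∃ q₀ : ℕ, ∀ q : ℕ, q.Prime → q₀ ≤ q → ∀ X : Finset (Ideal (𝓞 K) × Ideal (𝓞 K)),
      (∀ p ∈ X, p ∈ CP (qi K q) (qi K q) ∧ p ≠ (⊤, ⊤) ∧
        ∃ y₁ y₂ : Ideal (𝓞 (Kp K)), Real2 p y₁ y₂ ∧ Cg q y₁ y₂) →
      ∑ p ∈ X, ‖Dd (qi K q) (cnd K (qi K q)) ((q : ℝ) ^ (1 - 2 * ε₁)) p.1 p.2‖ ≤ η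

/-- (DS) all real relations, for proper divisors. -/
def T_DS : Prop :=
  ∀ (K : Type) [Field K] [NumberField K] [IsCMField K] (ε₁ ε : ℝ), 0 < ε₁ → ε₁ < 1 / 2 → 0 < ε →
    ∃ C : ℝ, ∀ q : ℕ, q.Prime → ∀ X : Finset (Ideal (𝓞 K) × Ideal (𝓞 K)),
      (∀ p ∈ X, p.1 ⊔ p.2 = ⊤ ∧ ∃ y₁ y₂ : Ideal (𝓞 (Kp K)), Real2 p y₁ y₂) →
      ∑ p ∈ X, ‖Dd (qi K q) (cnd K (qi K q)) ((q : ℝ) ^ (1 - 2 * ε₁)) p.1 p.2‖ ≤ C * (q : ℝ) ^ ε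

/-- (DL) the long relations. -/
def T_DL : Prop :=
  ∀ (K : Type) [Field K] [NumberField K] [IsCMField K] (ε₁ η c : ℝ), 0 < ε₁ → ε₁ < 1 / 2 →
    0 < η → 0 < c → ∃ q₀ : ℕ, ∀ q : ℕ, q.Prime → q₀ ≤ q → ∀ d : Ideal (𝓞 K), qi K q ≤ d →
      ∀ X : Finset (Ideal (𝓞 K) × Ideal (𝓞 K)),
      (∀ p ∈ X, p ∈ CP (qi K q) d ∧
        c * nm d ^ 2 ≤ nm p.1 * nm p.2 * (q : ℝ) ^ Module.finrank ℚ K) →
      (nc (qi K q) d : ℝ) *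
        ∑ p ∈ X, ‖Dd (qi K q) (cnd K (qi K q)) ((q : ℝ) ^ (1 - 2 * ε₁)) p.1 p.2‖ ≤
          η * nc (qi K q) (qi K q)

/-- (SM) the second moment. -/
def T_SM : Prop :=
  ∀ (K : Type) [Field K] [NumberField K] [IsCMField K] (ε₁ η : ℝ), 0 < ε₁ → ε₁ < 1 / 2 → 0 < η →
    ∃ q₀ : ℕ, ∀ q : ℕ, q.Prime → q₀ ≤ q →
      ∑ᶠ χ ∈ Pr K (qi K q), ‖cval χ‖ ^ 2 * ‖mol ((q : ℝ) ^ (1 - 2 * ε₁)) χ.ψ‖ ^ 2 ≤
        (1 + (Module.finrank ℚ K : ℝ) / (1 - 2 * ε₁) + η) * nc (qi K q) (qi K q)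

/-- the length of the first sum -/
noncomputable def Xq (K : Type) [Field K] [NumberField K] (q : ℕ) : ℝ :=
  cnd K (qi K q) ^ (1 + 1 / (4 * (Module.finrank ℚ K : ℝ)))

/-- (F1) the sums of the first moment. -/
def T_F1 : Prop :=
  ∀ (K : Type) [Field K] [NumberField K] [IsCMField K] (ε₁ η : ℝ), 0 < ε₁ → ε₁ < 1 / 2 → 0 < η →
    ∃ q₀ : ℕ, ∀ q : ℕ, q.Prime → q₀ ≤ q →
      ‖(∑' n : {n : Ideal (𝓞 K) // (n, ⊤) ∈ CP (qi K q) (qi K q)},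
        lam (Xq K q) ((q : ℝ) ^ (1 - 2 * ε₁)) n.1 * ((nm n.1 ^ (-(1 / 2) : ℝ) : ℝ) : ℂ)) - 1‖ ≤ η ∧
      ∀ d : Ideal (𝓞 K), qi K q ≤ d → d ≠ qi K q → (nc (qi K q) d : ℝ) *
        ‖∑' n : {n : Ideal (𝓞 K) // (n, ⊤) ∈ CP (qi K q) d},
          lam (Xq K q) ((q : ℝ) ^ (1 - 2 * ε₁)) n.1 * ((nm n.1 ^ (-(1 / 2) : ℝ) : ℝ) : ℂ)‖ ≤
          η * nc (qi K q) (qi K q)

/-- (FM) the first moment. -/
def T_FM : Prop :=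
  ∀ (K : Type) [Field K] [NumberField K] [IsCMField K] (ε₁ η : ℝ), 0 < ε₁ → ε₁ < 1 / 2 → 0 < η →
    ∃ q₀ : ℕ, ∀ q : ℕ, q.Prime → q₀ ≤ q →
      ‖(∑ᶠ χ ∈ Pr K (qi K q), cval χ * mol ((q : ℝ) ^ (1 - 2 * ε₁)) χ.ψ) -
        nc (qi K q) (qi K q)‖ ≤ η * nc (qi K q) (qi K q)

/-- (FIN) the proportion. -/
def T_FIN : Prop :=
  ∀ (K : Type) [Field K] [NumberField K] [IsCMField K] (ε : ℝ), 0 < ε →
    ∃ q₀ : ℕ, ∀ q : ℕ, q.Prime → q₀ ≤ q → (Pr K (qi K q)).Finite ∧ 0 < (Pr K (qi K q)).ncard ∧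
      (∀ χ ∈ Pr K (qi K q), ∃ Z, IsEnt χ Z) ∧
      (1 / ((Module.finrank ℚ K : ℝ) + 1) - ε) * (Pr K (qi K q)).ncard ≤
        ({χ | χ ∈ Pr K (qi K q) ∧ ∀ Z, IsEnt χ Z → Z (1 / 2) ≠ 0}.ncard : ℝ)

end Pool.Agent.H37.CV
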